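import Pool.Agent.W525.CB.Stm

/-! Project CB, part FIELD: existence of the field of the coordinates. -/

namespace Pool.Agent.W193.CB.FIELD

open Pool.Agent.W525.CB

section

variable (n : ℕ) (k : Type) [Field k]

/-- the polynomial ring -/
abbrev PP : Type := MvPolynomial (Fin (n + 1) ⊕ Fin (n + 1)) k

/-- its field of fractions -/
abbrev BB : Type := FractionRing (PP n k)

/-- the coordinates `a_i` -/
noncomputable def pa (i : Fin (n + 1)) : PP n k := MvPolynomial.X (Sum.inl i)

/-- the coordinates `b_i` -/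
noncomputable def pb (i : Fin (n + 1)) : PP n k := MvPolynomial.X (Sum.inr i)

/-- the polynomial `c` -/
noncomputable def pc : PP n k :=
  (∑ i, pa n k i * pb n k i ^ (n + 2)) ^ (2 * n + 5) - ∑ i, pa n k i ^ (2 * n + 5)

/-- evaluation at a point -/
noncomputable def ev {R : Type} [CommRing R] [Algebra k R] (a b : Fin (n + 1) → R) :
    PP n k →ₐ[k] R := MvPolynomial.aeval (Sum.elim a b)

variable {n k}

@[simp] theorem ev_a {R : Type} [CommRing R] [Algebra k R] (a b : Fin (n + 1) → R)
    (i : Fin (n + 1)) : ev n k a b (pa n k i) = a i := by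
  simp [ev, pa]

@[simp] theorem ev_b {R : Type} [CommRing R] [Algebra k R] (a b : Fin (n + 1) → R)
    (i : Fin (n + 1)) : ev n k a b (pb n k i) = b i := by
  simp [ev, pb]

theorem ev_c {R : Type} [CommRing R] [Algebra k R] (a b : Fin (n + 1) → R) :
    ev n k a b (pc n k) = (∑ i, a i * b i ^ (n + 2)) ^ (2 * n + 5) - ∑ i, a i ^ (2 * n + 5) := by
  simp [pc]

theorem theta_c (hn : 1 ≤ n) : ev n k (R := Polynomial k)
    (fun i => if i = 0 then Polynomial.X else if i = ⟨1, by omega⟩ then 1 else 0)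
    (fun _ => 0) (pc n k) = -(Polynomial.X ^ (2 * n + 5) - Polynomial.C (-1)) := by
  rw [ev_c]
  obtain ⟨m, rfl⟩ : ∃ m, n = m + 1 := ⟨n - 1, by omega⟩
  have h0 : ∀ i : Fin (m + 1 + 1), (if i = 0 then (Polynomial.X : Polynomial k) else
      if i = ⟨1, by omega⟩ then 1 else 0) * 0 ^ (m + 1 + 2) = 0 := by
    intro i; rw [zero_pow (by omega), mul_zero]
  rw [Finset.sum_congr rfl (fun i _ => h0 i), Finset.sum_const_zero, zero_pow (by omega),
    Fin.sum_univ_succ, Fin.sum_univ_succ]
  have h1 : ∀ i : Fin m, (if i.succ.succ = 0 then (Polynomial.X : Polynomial k) else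
      if i.succ.succ = (⟨1, by omega⟩ : Fin (m + 1 + 1)) then 1 else 0) ^ (2 * (m + 1) + 5) = 0 := by
    intro i
    rw [if_neg (Fin.succ_ne_zero _), if_neg, zero_pow (by omega)]
    intro h
    have := congrArg Fin.val h
    simp at this
  rw [Finset.sum_congr rfl (fun i _ => h1 i), Finset.sum_const_zero]
  have h2 : (Fin.succ (0 : Fin (m + 1))) = (⟨1, by omega⟩ : Fin (m + 1 + 1)) := rfl
  rw [if_pos rfl, if_neg (Fin.succ_ne_zero _), if_pos h2]
  simp

theorem irr (hn : 1 ≤ n) [CharP k (n + 2)] :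
    Irreducible (Polynomial.X ^ (2 * n + 5) -
      Polynomial.C (algebraMap (PP n k) (BB n k) (pc n k))) := by
  have hq : ((2 * n + 5 : ℕ) : k) ≠ 0 := by
    have h1 : ((n + 2 : ℕ) : k) = 0 := CharP.cast_eq_zero k (n + 2)
    have h2 : ((2 * n + 5 : ℕ) : k) = 2 * ((n + 2 : ℕ) : k) + 1 := by push_cast; ring
    rw [h2, h1, mul_zero, zero_add]
    exact one_ne_zero
  refine X_pow_sub_C_irreducible_of_odd ⟨n + 2, by ring⟩ ?_
  intro l hl _ b hb
  have hb' : IsIntegral (PP n k) (b ^ l) := by
    rw [hb]; exact isIntegral_algebraMap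
  obtain ⟨y, rfl⟩ := IsIntegrallyClosed.exists_algebraMap_eq_of_isIntegral_pow hl.pos hb'
  rw [← map_pow] at hb
  have hy : y ^ l = pc n k := IsFractionRing.injective (PP n k) (BB n k) hb
  have h3 := congrArg (ev n k (R := Polynomial k)
    (fun i => if i = 0 then Polynomial.X else if i = ⟨1, by omega⟩ then 1 else 0)
    (fun _ => 0)) hy
  rw [theta_c hn, map_pow] at h3
  set z := ev n k (R := Polynomial k)
    (fun i => if i = 0 then Polynomial.X else if i = ⟨1, by omega⟩ then 1 else 0)
    (fun _ => 0) y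
  have hsq : Squarefree (Polynomial.X ^ (2 * n + 5) - Polynomial.C (-1 : k)) :=
    (Polynomial.separable_X_pow_sub_C (-1 : k) hq (neg_ne_zero.mpr one_ne_zero)).squarefree
  have hdvd : z * z ∣ Polynomial.X ^ (2 * n + 5) - Polynomial.C (-1 : k) := by
    rw [← dvd_neg, ← h3, ← sq]
    exact pow_dvd_pow z hl.two_le
  have hu : IsUnit z := hsq z hdvd
  have hu2 : IsUnit (Polynomial.X ^ (2 * n + 5) - Polynomial.C (-1 : k)) := by
    rw [← IsUnit.neg_iff, ← h3]
    exact hu.pow l
  have hdeg := Polynomial.natDegree_eq_zero_of_isUnit hu2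
  rw [Polynomial.natDegree_X_pow_sub_C] at hdeg
  omega

end

section

variable (n : ℕ) (k : Type) [Field k]

/-- the equation of `x_0` -/
noncomputable abbrev fc : Polynomial (BB n k) :=
  Polynomial.X ^ (2 * n + 5) - Polynomial.C (algebraMap (PP n k) (BB n k) (pc n k))

/-- the field -/
abbrev EE : Type := AdjoinRoot (fc n k)

variable [Fact (Irreducible (fc n k))]

/-- the embedding of the polynomial ring -/
noncomputable def ph : PP n k →ₐ[k] EE n k :=
  (IsScalarTower.toAlgHom k (BB n k) (EE n k)).comp (IsScalarTower.toAlgHom k (PP n k) (BB n k))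

theorem ph_inj : Function.Injective (ph n k) := by
  intro p q h
  have h1 : algebraMap (BB n k) (EE n k) (algebraMap (PP n k) (BB n k) p) =
      algebraMap (BB n k) (EE n k) (algebraMap (PP n k) (BB n k) q) := h
  exact IsFractionRing.injective (PP n k) (BB n k) ((algebraMap (BB n k) (EE n k)).injective h1)

theorem ph_ne {p : PP n k} (hp : p ≠ 0) : ph n k p ≠ 0 := by
  intro h
  exact hp (ph_inj n k (by rw [h, map_zero]))

/-- the coordinate `x_0` -/
noncomputable def rt : EE n k := AdjoinRoot.root (fc n k)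

theorem rt_pow : rt n k ^ (2 * n + 5) = ph n k (pc n k) := by
  have h := AdjoinRoot.eval₂_root (fc n k)
  rw [fc, Polynomial.eval₂_sub, Polynomial.eval₂_X_pow, Polynomial.eval₂_C, sub_eq_zero] at h
  exact h

/-- the coordinates `x_i` -/
noncomputable def xx : Fin (n + 3) → EE n k :=
  Fin.cons (rt n k) (Fin.cons (ph n k (-∑ i, pa n k i * pb n k i ^ (n + 2)))
    (fun i => ph n k (pa n k i)))

/-- the coordinates `y_i` -/
noncomputable def yy : Fin (n + 3) → EE n k :=
  Fin.cons 0 (Fin.cons 1 (fun i => ph n k (pb n k i)))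

theorem xx0 : xx n k 0 = rt n k := rfl
theorem xx1 : xx n k (Fin.succ 0) = ph n k (-∑ i, pa n k i * pb n k i ^ (n + 2)) := rfl
theorem xx2 (i : Fin (n + 1)) : xx n k i.succ.succ = ph n k (pa n k i) := rfl
theorem yy0 : yy n k 0 = 0 := rfl
theorem yy1 : yy n k (Fin.succ 0) = 1 := rfl
theorem yy2 (i : Fin (n + 1)) : yy n k i.succ.succ = ph n k (pb n k i) := rfl

omit [Fact (Irreducible (fc n k))] in
theorem ne_ev {p : PP n k} (a b : Fin (n + 1) → k) (h : ev n k a b p ≠ 0) : p ≠ 0 := by
  rintro rfl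
  exact h (map_zero _)

omit [Fact (Irreducible (fc n k))] in
theorem sum_single (r : ℕ) (hr : r ≠ 0) :
    ∑ i : Fin (n + 1), (Pi.single (0 : Fin (n + 1)) (1 : k) : Fin (n + 1) → k) i ^ r = 1 := by
  rw [Finset.sum_eq_single 0]
  · simp
  · intro b _ hb
    rw [Pi.single_eq_of_ne hb, zero_pow hr]
  · simp

theorem rt_ne : rt n k ≠ 0 := by
  intro h
  have h1 := rt_pow n k
  rw [h, zero_pow (by omega)] at h1
  refine ph_ne n k (p := pc n k) ?_ h1.symm
  refine ne_ev n k (Pi.single 0 1) 0 ?_
  rw [ev_c, sum_single n k _ (by omega)]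
  simp

theorem x1_ne : ph n k (-∑ i, pa n k i * pb n k i ^ (n + 2)) ≠ 0 := by
  refine ph_ne n k ?_
  refine ne_ev n k (Pi.single 0 1) 1 ?_
  have := sum_single n k 1 (by omega)
  simp only [pow_one] at this
  simp [this]

theorem a_ne (i : Fin (n + 1)) : ph n k (pa n k i) ≠ 0 :=
  ph_ne n k (MvPolynomial.X_ne_zero _)

theorem b_ne (i : Fin (n + 1)) : ph n k (pb n k i) ≠ 0 :=
  ph_ne n k (MvPolynomial.X_ne_zero _)

theorem u1_ne (j : Fin (n + 1)) : ph n k (-∑ i, pa n k i * pb n k i ^ (n + 2)) ^ 2 *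
    ph n k (pb n k j) - ph n k (pa n k j) ^ 2 * 1 ≠ 0 := by
  rw [mul_one, ← map_pow, ← map_pow, ← map_mul, ← map_sub]
  refine ph_ne n k ?_
  refine ne_ev n k 1 0 ?_
  simp

theorem u2_ne (i j : Fin (n + 1)) (hij : i ≠ j) : ph n k (pa n k i) ^ 2 * ph n k (pb n k j) -
    ph n k (pa n k j) ^ 2 * ph n k (pb n k i) ≠ 0 := by
  rw [← map_pow, ← map_pow, ← map_mul, ← map_mul, ← map_sub]
  refine ph_ne n k ?_
  refine ne_ev n k 1 (Pi.single j 1) ?_
  simp [Pi.single_eq_of_ne hij]

theorem uu_swap {L : Type} [Field L] (x y : Fin (n + 3) → L) (i j : Fin (n + 3)) :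
    uu x y i j = -uu x y j i := by
  unfold uu; ring

theorem dat : Dat (xx n k) (yy n k) where
  fermat := by
    rw [Fin.sum_univ_succ, Fin.sum_univ_succ, xx0, rt_pow, xx1]
    simp only [xx2]
    rw [← map_pow, Odd.neg_pow ⟨n + 2, by ring⟩, pc, map_sub, map_sum, map_neg]
    simp only [map_pow]
    ring
  tang := by
    rw [Fin.sum_univ_succ, Fin.sum_univ_succ, xx0, xx1, yy0, yy1]
    simp only [xx2, yy2]
    rw [zero_pow (by omega), mul_zero, one_pow, mul_one, map_neg, map_sum]
    simp only [map_pow, map_mul]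
    ring
  nx := by
    intro i
    refine Fin.cases ?_ (fun i => Fin.cases ?_ (fun i => ?_) i) i
    · exact rt_ne n k
    · exact x1_ne n k
    · exact a_ne n k i
  nu := by
    have key : ∀ i j : Fin (n + 3), i < j → uu (xx n k) (yy n k) i j ≠ 0 := by
      intro i j
      refine Fin.cases ?_ (fun i => ?_) i
      · refine Fin.cases (fun h => absurd h (lt_irrefl _)) (fun j => ?_) j
        intro _
        have hy : yy n k j.succ ≠ 0 := by
          refine Fin.cases ?_ (fun j => ?_) j
          · rw [yy1]; exact one_ne_zero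
          · rw [yy2]; exact b_ne n k j
        unfold uu
        rw [xx0, yy0, mul_zero, sub_zero]
        exact mul_ne_zero (pow_ne_zero _ (rt_ne n k)) hy
      · refine Fin.cases (fun h => absurd h (by simp)) (fun j => ?_) j
        refine Fin.cases ?_ (fun i => ?_) i
        · refine Fin.cases (fun h => absurd h (lt_irrefl _)) (fun j => ?_) j
          intro _
          unfold uu
          rw [xx1, yy1, xx2, yy2]
          exact u1_ne n k j
        · refine Fin.cases (fun h => absurd h (by simp)) (fun j => ?_) j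
          intro h
          unfold uu
          rw [xx2, yy2, xx2, yy2]
          refine u2_ne n k i j ?_
          rintro rfl
          exact lt_irrefl _ h
    intro i j hij
    rcases lt_or_gt_of_ne hij with h | h
    · exact key i j h
    · rw [uu_swap]
      exact neg_ne_zero.mpr (key j i h)

theorem ph_eq : (MvPolynomial.aeval (Sum.elim (fun i : Fin (n + 1) => xx n k i.succ.succ)
    (fun i : Fin (n + 1) => yy n k i.succ.succ)) : PP n k →ₐ[k] EE n k) = ph n k := by
  refine MvPolynomial.algHom_ext fun i => ?_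
  rcases i with i | i
  · rw [MvPolynomial.aeval_X]; rfl
  · rw [MvPolynomial.aeval_X]; rfl

theorem ph_mem (K : IntermediateField k (EE n k)) (hx : ∀ i, xx n k i ∈ K) (hy : ∀ i, yy n k i ∈ K)
    (p : PP n k) : ph n k p ∈ K := by
  induction p using MvPolynomial.induction_on with
  | C c =>
    have : ph n k (MvPolynomial.C c) = algebraMap k (EE n k) c := (ph n k).commutes c
    rw [this]
    exact K.algebraMap_mem c
  | add p q hp hq => rw [map_add]; exact K.add_mem hp hq
  | mul_X p i hp =>
    rw [map_mul]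
    refine K.mul_mem hp ?_
    rcases i with i | i
    · exact hx i.succ.succ
    · exact hy i.succ.succ

theorem all_mem (K : IntermediateField k (EE n k)) (hx : ∀ i, xx n k i ∈ K)
    (hy : ∀ i, yy n k i ∈ K) (e : EE n k) : e ∈ K := by
  have hB : ∀ b : BB n k, algebraMap (BB n k) (EE n k) b ∈ K := by
    intro b
    obtain ⟨u, v, _, rfl⟩ := IsFractionRing.div_surjective (A := PP n k) b
    rw [map_div₀]
    exact K.div_mem (ph_mem n k K hx hy u) (ph_mem n k K hx hy v)
  induction e using AdjoinRoot.induction_on with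
  | ih p =>
    induction p using Polynomial.induction_on' with
    | add p q hp hq => rw [map_add]; exact K.add_mem hp hq
    | monomial m a =>
      rw [← Polynomial.C_mul_X_pow_eq_monomial, map_mul, map_pow, AdjoinRoot.mk_X,
        AdjoinRoot.mk_C]
      exact K.mul_mem (hB a) (pow_mem (show AdjoinRoot.root (fc n k) ∈ K from hx 0) m)

theorem edat : EDat n k (EE n k) (xx n k) (yy n k) where
  dat := dat n k
  y0 := rfl
  y1 := rfl
  ind := by
    show Function.Injective (MvPolynomial.aeval (Sum.elim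
      (fun i : Fin (n + 1) => xx n k i.succ.succ)
      (fun i : Fin (n + 1) => yy n k i.succ.succ)) : PP n k →ₐ[k] EE n k)
    rw [ph_eq]
    exact ph_inj n k
  gen := by
    rw [eq_top_iff]
    intro e _
    refine all_mem n k _ (fun i => ?_) (fun i => ?_) e
    · exact IntermediateField.subset_adjoin k _ (Or.inl ⟨i, rfl⟩)
    · exact IntermediateField.subset_adjoin k _ (Or.inr ⟨i, rfl⟩)

end

theorem main : S_FIELD := by
  intro n k _ _ _ _ hn
  have : Fact (Irreducible (fc n k)) := ⟨irr hn⟩
  exact ⟨EE n k, inferInstance, inferInstance, xx n k, yy n k, edat n k⟩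

end Pool.Agent.W193.CB.FIELD
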