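import Pool.Agent.W761.CB.Stms
import Pool.Agent.W975.CB.Ms
import Pool.Agent.W366.CB.Lam
import Pool.Agent.W417.CB.Ebc

/-!
# CB-MEAS: the measurement of the amplitudes
-/

set_option autoImplicit false

open MeasureTheory
open scoped ENNReal

namespace Pool.Agent.W193.CB

open Pool.Agent.W761.CB

noncomputable section

/-! ### Superpositions -/

section gen

variable {X : Type} [MeasurableSpace X] {d : Type} [Fintype d]

lemma bx_cube {s : d → ℝ} (hs : s ∈ bx d) (j : d) : |s j| ≤ 1 / 2 := by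
  have h := hs j (Set.mem_univ j)
  rw [abs_le]
  exact ⟨h.1.le, h.2⟩

lemma bx_meas : MeasurableSet (bx d) := MeasurableSet.univ_pi fun _ => measurableSet_Ioc

lemma bx_vol : volume (bx d) = 1 := by
  unfold bx
  rw [Real.volume_pi_Ioc]
  refine Finset.prod_eq_one fun j _ => ?_
  norm_num

lemma ek_norm (k : d → ℤ) (s : d → ℝ) : ‖ek k s‖ = 1 := by
  unfold ek
  rw [Complex.norm_exp]
  have h : (-(2 * Real.pi * Complex.I * ∑ j, (k j : ℂ) * (s j : ℂ))).re = 0 := by
    have e : (∑ j, (k j : ℂ) * (s j : ℂ)) = ((∑ j, (k j : ℝ) * s j : ℝ) : ℂ) := by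
      push_cast
      rfl
    rw [e]
    simp
  rw [h, Real.exp_zero]

lemma ek_meas (k : d → ℤ) : Measurable (ek k) := by
  have : Continuous (ek k) := by
    unfold ek
    fun_prop
  exact this.measurable

/-- families of vectors -/
structure JB (Ψ : (d → ℝ) → Multiset X → ℂ) : Prop where
  meas : Measurable fun q : (d → ℝ) × Cf X => Ψ q.1 (ms q.2)
  bdd : ∃ C c : ℝ, 0 ≤ C ∧ 1 ≤ c ∧ ∀ s, (∀ j, |s j| ≤ 1 / 2) →
    ∀ S, ‖Ψ s S‖ ≤ C * c ^ Multiset.card S

/-- bounded measurable windows -/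
structure GB (g : (d → ℝ) → ℂ) : Prop where
  meas : Measurable g
  bdd : ∃ K : ℝ, 0 ≤ K ∧ ∀ s, (∀ j, |s j| ≤ 1 / 2) → ‖g s‖ ≤ K

/-- superposition -/
def Tk (k : d → ℤ) (g : (d → ℝ) → ℂ) (Ψ : (d → ℝ) → Multiset X → ℂ) : Multiset X → ℂ :=
  fun S => ∫ s in bx d, ek k s * (g s * Ψ s S)

omit [MeasurableSpace X] in
lemma ms_surj (S : Multiset X) : ∃ γ : Cf X, ms γ = S := by
  refine ⟨⟨S.toList.length, S.toList.get⟩, ?_⟩
  unfold ms
  simp only [List.ofFn_get, Multiset.coe_toList]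

lemma JB.meas_fix {Ψ : (d → ℝ) → Multiset X → ℂ} (h : JB Ψ) (S : Multiset X) :
    Measurable fun s => Ψ s S := by
  obtain ⟨γ, rfl⟩ := ms_surj S
  exact h.meas.comp (measurable_id.prodMk measurable_const)

lemma int_fix (k : d → ℤ) {g : (d → ℝ) → ℂ} (hg : GB g) {Ψ : (d → ℝ) → Multiset X → ℂ}
    (h : JB Ψ) (S : Multiset X) :
    Integrable (fun s => ek k s * (g s * Ψ s S)) (volume.restrict (bx d)) := by
  obtain ⟨K, hK, hgK⟩ := hg.bdd
  obtain ⟨C, c, hC, hc, hb⟩ := h.bdd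
  refine Measure.integrableOn_of_bounded (M := K * (C * c ^ Multiset.card S)) ?_ ?_ ?_
  · rw [bx_vol]
    exact ENNReal.one_ne_top
  · exact ((ek_meas k).mul (hg.meas.mul (h.meas_fix S))).aestronglyMeasurable
  · refine (ae_restrict_mem bx_meas).mono fun s hs => ?_
    rw [norm_mul, ek_norm, one_mul, norm_mul]
    exact mul_le_mul (hgK s (bx_cube hs)) (hb s (bx_cube hs) S) (norm_nonneg _) hK

lemma Tk_meas (k : d → ℤ) {g : (d → ℝ) → ℂ} (hg : GB g) {Ψ : (d → ℝ) → Multiset X → ℂ}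
    (h : JB Ψ) : Measurable fun γ : Cf X => Tk k g Ψ (ms γ) := by
  have h1 : Measurable fun q : (d → ℝ) × Cf X => ek k q.1 * (g q.1 * Ψ q.1 (ms q.2)) :=
    ((ek_meas k).comp measurable_fst).mul ((hg.meas.comp measurable_fst).mul h.meas)
  exact (StronglyMeasurable.integral_prod_left' (μ := volume.restrict (bx d))
    h1.stronglyMeasurable).measurable

lemma Tk_EB (k : d → ℤ) {g : (d → ℝ) → ℂ} (hg : GB g) {Ψ : (d → ℝ) → Multiset X → ℂ}
    (h : JB Ψ) : EB (Tk k g Ψ) := by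
  refine ⟨Tk_meas k hg h, ?_⟩
  obtain ⟨K, hK, hgK⟩ := hg.bdd
  obtain ⟨C, c, hC, hc, hb⟩ := h.bdd
  refine ⟨K * C, c, by positivity, hc, fun S => ?_⟩
  have h1 : ∀ s ∈ bx d, ‖ek k s * (g s * Ψ s S)‖ ≤ K * C * c ^ Multiset.card S := by
    intro s hs
    rw [norm_mul, ek_norm, one_mul, norm_mul, mul_assoc]
    exact mul_le_mul (hgK s (bx_cube hs)) (hb s (bx_cube hs) S) (norm_nonneg _) hK
  have h2 := norm_setIntegral_le_of_norm_le_const (μ := volume)
    (by rw [bx_vol]; exact ENNReal.one_lt_top) h1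
  unfold Tk
  refine h2.trans (le_of_eq ?_)
  rw [Measure.real, bx_vol, ENNReal.toReal_one, mul_one]

/-- the sum of the squared norms -/
lemma sumT (hP : S_PAR) (ν : Measure X) [IsFiniteMeasure ν] {g : (d → ℝ) → ℂ} (hg : GB g)
    {Ψ : (d → ℝ) → Multiset X → ℂ} (h : JB Ψ) :
    ∑' k, nE ν (Tk k g Ψ) = ∫⁻ s in bx d, ‖g s‖ₑ ^ 2 * nE ν (Ψ s) := by
  haveI : IsFiniteMeasure (lam ν) := (Pool.Agent.W366.CB.proof_lam
    Pool.Agent.W975.CB.proof_ms X ν).2.1
  unfold nE
  rw [← lintegral_tsum (fun k => ((Tk_meas k hg h).enorm.pow_const 2).aemeasurable)]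
  have h1 : ∀ γ : Cf X, ∑' k, ‖Tk k g Ψ (ms γ)‖ₑ ^ 2 =
      ∫⁻ s in bx d, ‖g s * Ψ s (ms γ)‖ₑ ^ 2 := by
    intro γ
    refine hP d (fun s => g s * Ψ s (ms γ)) (hg.meas.mul (h.meas_fix _)) ?_
    obtain ⟨K, hK, hgK⟩ := hg.bdd
    obtain ⟨C, c, hC, hc, hb⟩ := h.bdd
    refine ⟨K * (C * c ^ Multiset.card (ms γ)), fun s hs => ?_⟩
    rw [norm_mul]
    exact mul_le_mul (hgK s (bx_cube hs)) (hb s (bx_cube hs) _) (norm_nonneg _) hK
  simp only [h1]
  rw [lintegral_lintegral_swap]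
  · refine lintegral_congr fun s => ?_
    simp only [enorm_mul, mul_pow]
    rw [lintegral_const_mul]
    exact (h.meas.comp (measurable_const.prodMk measurable_id)).enorm.pow_const 2
  · refine (Measurable.pow_const (Measurable.enorm ?_) 2).aemeasurable
    exact (hg.meas.comp measurable_snd).mul (h.meas.comp measurable_swap)

lemma Tk_lin (k : d → ℤ) {g : (d → ℝ) → ℂ} (hg : GB g) {Ψ Ψ' : (d → ℝ) → Multiset X → ℂ}
    (h : JB Ψ) (h' : JB Ψ') (a b : ℂ) (S : Multiset X) :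
    Tk k g (fun s S => a * Ψ s S + b * Ψ' s S) S = a * Tk k g Ψ S + b * Tk k g Ψ' S := by
  unfold Tk
  rw [← integral_const_mul, ← integral_const_mul, ← integral_add]
  · refine integral_congr_ae (Filter.Eventually.of_forall fun s => ?_)
    ring
  · exact (int_fix k hg h S).const_mul a
  · exact (int_fix k hg h' S).const_mul b

lemma JB.lin {Ψ Ψ' : (d → ℝ) → Multiset X → ℂ} (h : JB Ψ) (h' : JB Ψ') (a b : ℂ) :
    JB (fun s S => a * Ψ s S + b * Ψ' s S) := by
  refine ⟨(h.meas.const_mul a).add (h'.meas.const_mul b), ?_⟩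
  obtain ⟨C, c, hC, hc, hb⟩ := h.bdd
  obtain ⟨C', c', hC', hc', hb'⟩ := h'.bdd
  refine ⟨‖a‖ * C + ‖b‖ * C', max c c', by positivity, hc.trans (le_max_left _ _), ?_⟩
  intro s hs S
  have h1 : c ^ Multiset.card S ≤ max c c' ^ Multiset.card S :=
    pow_le_pow_left₀ (zero_le_one.trans hc) (le_max_left _ _) _
  have h2 : c' ^ Multiset.card S ≤ max c c' ^ Multiset.card S :=
    pow_le_pow_left₀ (zero_le_one.trans hc') (le_max_right _ _) _
  calc ‖a * Ψ s S + b * Ψ' s S‖ ≤ ‖a‖ * ‖Ψ s S‖ + ‖b‖ * ‖Ψ' s S‖ := by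
        refine (norm_add_le _ _).trans ?_
        rw [norm_mul, norm_mul]
    _ ≤ ‖a‖ * (C * max c c' ^ Multiset.card S) + ‖b‖ * (C' * max c c' ^ Multiset.card S) := by
        gcongr
        · exact (hb s hs S).trans (mul_le_mul_of_nonneg_left h1 hC)
        · exact (hb' s hs S).trans (mul_le_mul_of_nonneg_left h2 hC')
    _ = _ := by ring

omit [Fintype d] in
lemma meas_cons {Ψ : (d → ℝ) → Multiset X → ℂ}
    (h : Measurable fun q : (d → ℝ) × Cf X => Ψ q.1 (ms q.2)) :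
    Measurable fun q : X × (d → ℝ) × Cf X => Ψ q.2.1 (q.1 ::ₘ ms q.2.2) := by
  obtain ⟨hcs, -⟩ := Pool.Agent.W975.CB.proof_ms X
  have h1 : Measurable fun q : X × (d → ℝ) × Cf X => (q.2.1, cs q.1 q.2.2) :=
    (measurable_fst.comp measurable_snd).prodMk
      (hcs.comp (measurable_fst.prodMk (measurable_snd.comp measurable_snd)))
  have := h.comp h1
  simpa only [Function.comp_def, Pool.Agent.W417.CB.ms_cs] using this

lemma JB.cons_bdd {Ψ : (d → ℝ) → Multiset X → ℂ} (h : JB Ψ) :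
    ∃ C c : ℝ, 0 ≤ C ∧ 1 ≤ c ∧ ∀ s, (∀ j, |s j| ≤ 1 / 2) →
      ∀ x S, ‖Ψ s (x ::ₘ S)‖ ≤ C * c ^ Multiset.card S := by
  obtain ⟨C, c, hC, hc, hb⟩ := h.bdd
  refine ⟨C * c, c, by positivity, hc, fun s hs x S => ?_⟩
  have := hb s hs (x ::ₘ S)
  rw [Multiset.card_cons, pow_succ] at this
  calc _ ≤ _ := this
    _ = _ := by ring

lemma JB.shift {Ψ : (d → ℝ) → Multiset X → ℂ} (h : JB Ψ) (x : X) :
    JB (fun s S => Ψ s (x ::ₘ S)) := by
  obtain ⟨C, c, hC, hc, hb⟩ := h.cons_bdd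
  exact ⟨(meas_cons h.meas).comp (measurable_const.prodMk measurable_id), C, c, hC, hc,
    fun s hs S => hb s hs x S⟩

lemma JB.ag (ν : Measure X) [IsFiniteMeasure ν] {Ψ : (d → ℝ) → Multiset X → ℂ} (h : JB Ψ)
    {f : X → ℝ} (hf : Measurable f) (hfb : ∃ C : ℝ, ∀ x, |f x| ≤ C) :
    JB (fun s => ag ν f (Ψ s)) := by
  obtain ⟨C, c, hC, hc, hb⟩ := h.cons_bdd
  obtain ⟨K, hK⟩ := hfb
  refine ⟨?_, |K| * C * ν.real Set.univ, c, by positivity, hc, ?_⟩
  · have h1 : Measurable (fun q : X × (d → ℝ) × Cf X => (f q.1 : ℂ) *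
        Ψ q.2.1 (q.1 ::ₘ ms q.2.2)) :=
      (Complex.measurable_ofReal.comp (hf.comp measurable_fst)).mul (meas_cons h.meas)
    have h2 := StronglyMeasurable.integral_prod_left' (μ := ν) h1.stronglyMeasurable
    exact h2.measurable
  · intro s hs S
    unfold Pool.Agent.W761.CB.ag
    have h1 : ∀ᵐ x ∂ν, ‖(f x : ℂ) * Ψ s (x ::ₘ S)‖ ≤ |K| * (C * c ^ Multiset.card S) := by
      refine Filter.Eventually.of_forall fun x => ?_
      rw [norm_mul, Complex.norm_real, Real.norm_eq_abs]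
      exact mul_le_mul ((hK x).trans (le_abs_self K)) (hb s hs x S) (norm_nonneg _)
        (abs_nonneg _)
    calc _ ≤ _ := norm_integral_le_of_norm_le_const h1
      _ = _ := by ring

/-- Fubini -/
lemma Tk_ag (ν : Measure X) [IsFiniteMeasure ν] (k : d → ℤ) {g : (d → ℝ) → ℂ} (hg : GB g)
    {Ψ : (d → ℝ) → Multiset X → ℂ} (h : JB Ψ)
    {f : X → ℝ} (hf : Measurable f) (hfb : ∃ C : ℝ, ∀ x, |f x| ≤ C) :
    ag ν f (Tk k g Ψ) = Tk k g (fun s => ag ν f (Ψ s)) := by
  funext S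
  unfold ag Tk
  have e1 : ∀ x, (f x : ℂ) * ∫ s in bx d, ek k s * (g s * Ψ s (x ::ₘ S)) =
      ∫ s in bx d, (f x : ℂ) * (ek k s * (g s * Ψ s (x ::ₘ S))) := fun x =>
    (integral_const_mul _ _).symm
  have e2 : ∀ s, ek k s * (g s * ∫ x, (f x : ℂ) * Ψ s (x ::ₘ S) ∂ν) =
      ∫ x, (f x : ℂ) * (ek k s * (g s * Ψ s (x ::ₘ S))) ∂ν := by
    intro s
    rw [← integral_const_mul, ← integral_const_mul]
    refine integral_congr_ae (Filter.Eventually.of_forall fun x => ?_)
    ring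
  simp only [e1, e2]
  refine integral_integral_swap ?_
  obtain ⟨K, hK, hgK⟩ := hg.bdd
  obtain ⟨C, c, hC, hc, hb⟩ := h.cons_bdd
  obtain ⟨K', hK'⟩ := hfb
  obtain ⟨γ, rfl⟩ := ms_surj S
  have hm : Measurable (Function.uncurry fun (x : X) (s : d → ℝ) =>
      (f x : ℂ) * (ek k s * (g s * Ψ s (x ::ₘ ms γ)))) := by
    refine (Complex.measurable_ofReal.comp (hf.comp measurable_fst)).mul
      (((ek_meas k).comp measurable_snd).mul ((hg.meas.comp measurable_snd).mul ?_))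
    exact (meas_cons h.meas).comp
      (measurable_fst.prodMk (measurable_snd.prodMk measurable_const))
  haveI : IsFiniteMeasure (volume.restrict (bx d)) :=
    ⟨by rw [Measure.restrict_apply_univ, bx_vol]; exact ENNReal.one_lt_top⟩
  refine Integrable.of_bound hm.aestronglyMeasurable
    (|K'| * (K * (C * c ^ Multiset.card (ms γ)))) ?_
  have hmem : ∀ᵐ p ∂(ν.prod (volume.restrict (bx d))), p.2 ∈ bx d := by
    have h3 := (Measure.quasiMeasurePreserving_snd (μ := ν) (ν := volume.restrict (bx d))).ae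
      (ae_restrict_mem bx_meas)
    exact h3
  refine hmem.mono fun p hp => ?_
  simp only [Function.uncurry]
  rw [norm_mul, norm_mul, norm_mul, ek_norm, one_mul, Complex.norm_real, Real.norm_eq_abs]
  refine mul_le_mul ((hK' _).trans (le_abs_self K')) ?_ (by positivity) (abs_nonneg _)
  exact mul_le_mul (hgK _ (bx_cube hp)) (hb _ (bx_cube hp) _ _) (norm_nonneg _) hK

omit [Fintype d] in
lemma GB.mul {f g : (d → ℝ) → ℂ} (hf : GB f) (hg : GB g) : GB fun s => f s * g s := by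
  obtain ⟨K, hK, h⟩ := hf.bdd
  obtain ⟨K', hK', h'⟩ := hg.bdd
  refine ⟨hf.meas.mul hg.meas, K * K', by positivity, fun s hs => ?_⟩
  rw [norm_mul]
  exact mul_le_mul (h s hs) (h' s hs) (norm_nonneg _) hK

omit [Fintype d] in
lemma GB.add {f g : (d → ℝ) → ℂ} (hf : GB f) (hg : GB g) : GB fun s => f s + g s := by
  obtain ⟨K, hK, h⟩ := hf.bdd
  obtain ⟨K', hK', h'⟩ := hg.bdd
  exact ⟨hf.meas.add hg.meas, K + K', by positivity, fun s hs =>
    (norm_add_le _ _).trans (add_le_add (h s hs) (h' s hs))⟩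

omit [Fintype d] in
lemma GB.const (a : ℂ) : GB fun _ : d → ℝ => a :=
  ⟨measurable_const, ‖a‖, norm_nonneg _, fun _ _ => le_rfl⟩

lemma GB.ek (k : d → ℤ) : GB (ek k) :=
  ⟨ek_meas k, 1, zero_le_one, fun s _ => (ek_norm k s).le⟩

lemma GB.int {f : (d → ℝ) → ℂ} (hf : GB f) : Integrable f (volume.restrict (bx d)) := by
  obtain ⟨K, hK, h⟩ := hf.bdd
  refine Measure.integrableOn_of_bounded (M := K) ?_ hf.meas.aestronglyMeasurable ?_
  · rw [bx_vol]
    exact ENNReal.one_ne_top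
  · exact (ae_restrict_mem bx_meas).mono fun s hs => h s (bx_cube hs)

lemma int3 {f g h : (d → ℝ) → ℂ} (hf : GB f) (hg : GB g) (hh : GB h) (a b c : ℂ) :
    ∫ s in bx d, (a * f s + b * g s + c * h s) =
      a * (∫ s in bx d, f s) + b * (∫ s in bx d, g s) + c * ∫ s in bx d, h s := by
  have h1 : Integrable (fun s => a * f s + b * g s) (volume.restrict (bx d)) :=
    (hf.int.const_mul a).add (hg.int.const_mul b)
  rw [integral_add h1 (hh.int.const_mul c),
    integral_add (hf.int.const_mul a) (hg.int.const_mul b), integral_const_mul,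
    integral_const_mul, integral_const_mul]

lemma JB.gb {Ψ : (d → ℝ) → Multiset X → ℂ} (h : JB Ψ) (S : Multiset X) :
    GB fun s => Ψ s S := by
  obtain ⟨C, c, hC, hc, hb⟩ := h.bdd
  exact ⟨h.meas_fix S, C * c ^ Multiset.card S, by positivity, fun s hs => hb s hs S⟩

lemma ek_der [DecidableEq d] (k : d → ℤ) (j : d) (s : d → ℝ) :
    HasDerivAt (fun t : ℝ => ek k (Function.update s j t))
      (-(2 * Real.pi * Complex.I * k j) * ek k s) (s j) := by
  have h1 : ∀ i, HasDerivAt (fun t : ℝ => ((Function.update s j t i : ℝ) : ℂ))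
      (if i = j then 1 else 0) (s j) := by
    intro i
    by_cases hij : i = j
    · subst hij
      simp only [Function.update_self, if_true]
      exact (hasDerivAt_id (s i)).ofReal_comp
    · simp only [Function.update_of_ne hij, if_neg hij]
      exact hasDerivAt_const _ _
  have h2 := HasDerivAt.fun_sum (u := Finset.univ) fun i _ => (h1 i).const_mul (k i : ℂ)
  have h3 := ((h2.const_mul (2 * Real.pi * Complex.I)).neg).cexp
  simp only [mul_ite, mul_one, mul_zero, Finset.sum_ite_eq', Finset.mem_univ, if_true,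
    Pi.neg_apply, Function.update_eq_self] at h3
  unfold Pool.Agent.W761.CB.ek
  refine h3.congr_deriv ?_
  ring

end gen

/-! ### The averages over the window -/

section win

variable {X : Type} [MeasurableSpace X] {I : Type} [Fintype I]

/-- linear function of the parameters -/
def bt (κ : ℝ) (a : I → ℝ) (s : I × Bool → ℝ) : ℂ :=
  ∑ i, (κ : ℂ) * ((s (i, false) : ℂ) + Complex.I * (s (i, true) : ℂ)) * (a i : ℂ)

/-- average -/
def J (Φ : (I × Bool → ℝ) → ℝ≥0∞) : ℝ≥0∞ :=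
  ∫⁻ s in bx (I × Bool), ENNReal.ofReal (win s ^ 2) * Φ s

lemma win_meas {d : Type} [Fintype d] : Measurable (win : (d → ℝ) → ℝ) := by
  have : Continuous (win : (d → ℝ) → ℝ) := by
    unfold win
    fun_prop
  exact this.measurable

lemma dwin_meas {d : Type} [Fintype d] [DecidableEq d] (j : d) :
    Measurable (dwin j : (d → ℝ) → ℝ) := by
  have : Continuous (dwin j : (d → ℝ) → ℝ) := by
    unfold dwin
    fun_prop
  exact this.measurable

lemma rot_meas : Measurable (rot : (I × Bool → ℝ) → I × Bool → ℝ) := by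
  refine measurable_pi_lambda _ fun j => ?_
  unfold rot
  split_ifs
  · exact measurable_pi_apply _
  · exact (measurable_pi_apply _).neg

lemma J_add {Φ Φ' : (I × Bool → ℝ) → ℝ≥0∞} (h : Measurable Φ) :
    J (fun s => Φ s + Φ' s) = J Φ + J Φ' := by
  unfold J
  simp only [mul_add]
  exact lintegral_add_left (((win_meas.pow_const 2).ennreal_ofReal).mul h) _

lemma J_mul_const {Φ : (I × Bool → ℝ) → ℝ≥0∞} (h : Measurable Φ) (c : ℝ≥0∞) :
    J (fun s => Φ s * c) = J Φ * c := by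
  unfold J
  simp only [← mul_assoc]
  exact lintegral_mul_const _ (((win_meas.pow_const 2).ennreal_ofReal).mul h)

lemma J_const (hW : S_WIN) (c : ℝ≥0∞) : J (fun _ : I × Bool → ℝ => c) = c := by
  classical
  unfold J
  rw [lintegral_mul_const _ ((win_meas.pow_const 2).ennreal_ofReal), (hW I).1, one_mul]

lemma J_mono {Φ Φ' : (I × Bool → ℝ) → ℝ≥0∞}
    (h : ∀ s : I × Bool → ℝ, (∀ j, |s j| ≤ 1 / 2) → Φ s ≤ Φ' s) : J Φ ≤ J Φ' := by
  unfold J
  refine setLIntegral_mono' bx_meas fun s hs => ?_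
  exact mul_le_mul_right (h s (bx_cube hs)) _

lemma J_rot (hW : S_WIN) {Φ : (I × Bool → ℝ) → ℝ≥0∞} (h : Measurable Φ) :
    J (fun s => Φ (rot s)) = J Φ := by
  classical
  exact (hW I).2.2.1 Φ h

lemma en2 (z : ℂ) : ‖z‖ₑ ^ 2 = ENNReal.ofReal (Complex.normSq z) := by
  rw [← ofReal_norm, ← ENNReal.ofReal_pow (norm_nonneg _), Complex.sq_norm]

lemma four (p q r : ℂ) : ‖p + q + r‖ₑ ^ 2 + ‖p + Complex.I * q + -r‖ₑ ^ 2 +
    ‖p + Complex.I * (Complex.I * q) + - -r‖ₑ ^ 2 +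
    ‖p + Complex.I * (Complex.I * (Complex.I * q)) + - - -r‖ₑ ^ 2 =
    4 * (‖p‖ₑ ^ 2 + ‖q‖ₑ ^ 2 + ‖r‖ₑ ^ 2) := by
  simp only [en2]
  have e4 : (4 : ℝ≥0∞) = ENNReal.ofReal 4 := by norm_num
  have n := fun z : ℂ => Complex.normSq_nonneg z
  rw [e4, ← ENNReal.ofReal_add (n _) (n _), ← ENNReal.ofReal_add (add_nonneg (n _) (n _)) (n _),
    ← ENNReal.ofReal_add (add_nonneg (add_nonneg (n _) (n _)) (n _)) (n _),
    ← ENNReal.ofReal_add (n _) (n _),
    ← ENNReal.ofReal_add (add_nonneg (n _) (n _)) (n _), ← ENNReal.ofReal_mul (by norm_num)]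
  congr 1
  simp only [Complex.normSq_apply, Complex.add_re, Complex.add_im, Complex.mul_re,
    Complex.mul_im, Complex.I_re, Complex.I_im, Complex.neg_re, Complex.neg_im]
  ring

/-- averages -/
lemma avg (hW : S_WIN) (ν : Measure X) [IsFiniteMeasure ν] (P : Multiset X → ℂ)
    (Q R : (I × Bool → ℝ) → Multiset X → ℂ) (hP : Measurable fun γ : Cf X => P (ms γ))
    (hQ : Measurable fun q : (I × Bool → ℝ) × Cf X => Q q.1 (ms q.2))
    (hR : Measurable fun q : (I × Bool → ℝ) × Cf X => R q.1 (ms q.2))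
    (hQr : ∀ s S, Q (rot s) S = Complex.I * Q s S) (hRr : ∀ s S, R (rot s) S = -R s S) :
    J (fun s => nE ν (fun S => P S + Q s S + R s S)) =
      nE ν P + J (fun s => nE ν (Q s)) + J (fun s => nE ν (R s)) := by
  haveI : IsFiniteMeasure (lam ν) := (Pool.Agent.W366.CB.proof_lam
    Pool.Agent.W975.CB.proof_ms X ν).2.1
  obtain ⟨Φ, hΦ⟩ : ∃ Φ : (I × Bool → ℝ) → ℝ≥0∞, Φ = fun s =>
    nE ν (fun S => P S + Q s S + R s S) := ⟨_, rfl⟩
  have mΦ : Measurable Φ := by
    rw [hΦ]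
    unfold nE
    have h1 : Measurable (fun q : (I × Bool → ℝ) × Cf X =>
        ‖P (ms q.2) + Q q.1 (ms q.2) + R q.1 (ms q.2)‖ₑ ^ 2) :=
      ((((hP.comp measurable_snd).add hQ).add hR).enorm.pow_const 2)
    exact h1.lintegral_prod_right'
  have mQ : Measurable fun s => nE ν (Q s) := by
    unfold nE
    exact (hQ.enorm.pow_const 2).lintegral_prod_right'
  have mR : Measurable fun s => nE ν (R s) := by
    unfold nE
    exact (hR.enorm.pow_const 2).lintegral_prod_right'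
  have m1 : Measurable fun s => Φ (rot s) := mΦ.comp rot_meas
  have m2 : Measurable fun s => Φ (rot (rot s)) := m1.comp rot_meas
  have m3 : Measurable fun s => Φ (rot (rot (rot s))) := m2.comp rot_meas
  have j1 : J (fun s => Φ (rot s)) = J Φ := J_rot hW mΦ
  have j2 : J (fun s => Φ (rot (rot s))) = J Φ := (J_rot hW m1).trans j1
  have j3 : J (fun s => Φ (rot (rot (rot s)))) = J Φ := (J_rot hW m2).trans j2
  have key : ∀ s, Φ s + Φ (rot s) + Φ (rot (rot s)) + Φ (rot (rot (rot s))) =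
      4 * (nE ν P + nE ν (Q s) + nE ν (R s)) := by
    intro s
    rw [hΦ]
    simp only [nE, hQr, hRr]
    have a1 : Measurable fun γ : Cf X => Q s (ms γ) :=
      hQ.comp (measurable_const.prodMk measurable_id)
    have a2 : Measurable fun γ : Cf X => R s (ms γ) :=
      hR.comp (measurable_const.prodMk measurable_id)
    have b0 : Measurable fun γ : Cf X => ‖P (ms γ) + Q s (ms γ) + R s (ms γ)‖ₑ ^ 2 :=
      ((hP.add a1).add a2).enorm.pow_const 2
    have b1 : Measurable fun γ : Cf X =>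
        ‖P (ms γ) + Complex.I * Q s (ms γ) + -R s (ms γ)‖ₑ ^ 2 :=
      ((hP.add (a1.const_mul _)).add a2.neg).enorm.pow_const 2
    have b2 : Measurable fun γ : Cf X =>
        ‖P (ms γ) + Complex.I * (Complex.I * Q s (ms γ)) + - -R s (ms γ)‖ₑ ^ 2 :=
      ((hP.add ((a1.const_mul _).const_mul _)).add a2.neg.neg).enorm.pow_const 2
    have c1 := b0.add b1
    have c2 := c1.add b2
    have d0 : Measurable fun γ : Cf X => ‖P (ms γ)‖ₑ ^ 2 := hP.enorm.pow_const 2
    have d1 : Measurable fun γ : Cf X => ‖P (ms γ)‖ₑ ^ 2 + ‖Q s (ms γ)‖ₑ ^ 2 :=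
      d0.add (a1.enorm.pow_const 2)
    have d2 : Measurable fun γ : Cf X =>
        ‖P (ms γ)‖ₑ ^ 2 + ‖Q s (ms γ)‖ₑ ^ 2 + ‖R s (ms γ)‖ₑ ^ 2 :=
      d1.add (a2.enorm.pow_const 2)
    simp only [Pi.add_def] at c1 c2
    rw [← lintegral_add_left b0, ← lintegral_add_left c1, ← lintegral_add_left c2]
    simp only [four]
    rw [lintegral_const_mul _ d2, lintegral_add_left d1, lintegral_add_left d0]
  have k1 : Measurable fun s => Φ s + Φ (rot s) := mΦ.add m1
  have k2 : Measurable fun s => Φ s + Φ (rot s) + Φ (rot (rot s)) := k1.add m2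
  have l1 : Measurable fun s => nE ν P + nE ν (Q s) := measurable_const.add mQ
  have l2 : Measurable fun s => nE ν P + nE ν (Q s) + nE ν (R s) := l1.add mR
  have h4 : 4 * J Φ = 4 * (nE ν P + J (fun s => nE ν (Q s)) + J (fun s => nE ν (R s))) := by
    calc 4 * J Φ = J Φ + J Φ + J Φ + J Φ := by ring
      _ = J (fun s => Φ s + Φ (rot s) + Φ (rot (rot s)) + Φ (rot (rot (rot s)))) := by
          rw [J_add k2, J_add k1, J_add mΦ, j1, j2, j3]
      _ = J (fun s => (nE ν P + nE ν (Q s) + nE ν (R s)) * 4) := by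
          simp only [key, mul_comm (4 : ℝ≥0∞)]
      _ = 4 * (nE ν P + J (fun s => nE ν (Q s)) + J (fun s => nE ν (R s))) := by
          rw [J_mul_const l2, J_add l1, J_add measurable_const, J_const hW, mul_comm]
  rw [← hΦ]
  exact (ENNReal.mul_right_inj (by norm_num) (by norm_num)).1 h4

lemma bt_rot (κ : ℝ) (a : I → ℝ) (s : I × Bool → ℝ) :
    bt κ a (rot s) = Complex.I * bt κ a s := by
  unfold bt rot
  rw [Finset.mul_sum]
  refine Finset.sum_congr rfl fun i _ => ?_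
  simp only [Bool.false_eq_true, if_false, if_true, Complex.ofReal_neg]
  linear_combination (-(κ : ℂ) * s (i, true) * a i) * Complex.I_sq

lemma bt_meas (κ : ℝ) (a : I → ℝ) : Measurable (bt κ a) := by
  have : Continuous (bt κ a) := by
    unfold bt
    fun_prop
  exact this.measurable

lemma bt_sub (κ : ℝ) (a b : I → ℝ) (s : I × Bool → ℝ) :
    bt κ a s - bt κ b s = bt κ (fun i => a i - b i) s := by
  unfold bt
  rw [← Finset.sum_sub_distrib]
  refine Finset.sum_congr rfl fun i _ => ?_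
  push_cast
  ring

lemma J_bt (hW : S_WIN) (κ : ℝ) (a : I → ℝ) :
    J (fun s => ‖bt κ a s‖ₑ ^ 2) = ENNReal.ofReal (κ ^ 2 / 14 * ∑ i, a i ^ 2) := by
  classical
  have e1 : ∀ s : I × Bool → ℝ, bt κ a s =
      (κ : ℂ) * ∑ i, (a i : ℂ) * ((s (i, false) : ℂ) + Complex.I * (s (i, true) : ℂ)) := by
    intro s
    unfold bt
    rw [Finset.mul_sum]
    exact Finset.sum_congr rfl fun i _ => by ring
  have h := (hW I).2.1 a
  have e2 : ‖(κ : ℂ)‖ₑ ^ 2 = ENNReal.ofReal (κ ^ 2) := by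
    rw [en2, Complex.normSq_ofReal, sq]
  simp only [e1, enorm_mul, mul_pow, e2]
  have m : Measurable fun s : I × Bool → ℝ =>
      ‖∑ i, (a i : ℂ) * ((s (i, false) : ℂ) + Complex.I * (s (i, true) : ℂ))‖ₑ ^ 2 := by
    have : Continuous fun s : I × Bool → ℝ =>
      ∑ i, (a i : ℂ) * ((s (i, false) : ℂ) + Complex.I * (s (i, true) : ℂ)) := by fun_prop
    exact this.measurable.enorm.pow_const 2
  have e3 := J_mul_const m (ENNReal.ofReal (κ ^ 2))
  simp only [mul_comm _ (ENNReal.ofReal (κ ^ 2))] at e3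
  rw [e3]
  unfold J
  rw [h, ← ENNReal.ofReal_mul (sq_nonneg κ)]
  congr 1
  ring

lemma bt_norm {κ : ℝ} (hκ : 0 ≤ κ) {a : I → ℝ} (ha : ∀ i, 0 ≤ a i) {s : I × Bool → ℝ}
    (hs : ∀ j, |s j| ≤ 1 / 2) : ‖bt κ a s‖ ≤ κ * √(1 / 2) * ∑ i, a i := by
  unfold bt
  rw [Finset.mul_sum]
  refine norm_sum_le_of_le _ fun i _ => ?_
  rw [norm_mul, norm_mul, Complex.norm_real, Complex.norm_real, Real.norm_of_nonneg hκ,
    Real.norm_of_nonneg (ha i)]
  refine mul_le_mul_of_nonneg_right (mul_le_mul_of_nonneg_left ?_ hκ) (ha i)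
  refine Real.le_sqrt_of_sq_le ?_
  rw [Complex.sq_norm, Complex.normSq_apply]
  have h0 := abs_le.1 (hs (i, false))
  have h1 := abs_le.1 (hs (i, true))
  simp only [Complex.add_re, Complex.add_im, Complex.mul_re, Complex.mul_im, Complex.I_re,
    Complex.I_im, Complex.ofReal_re, Complex.ofReal_im]
  nlinarith [h0.1, h0.2, h1.1, h1.2]

/-- averages, two terms -/
lemma avg1 (hW : S_WIN) (ν : Measure X) [IsFiniteMeasure ν] {A B : Multiset X → ℂ}
    (hA : EB A) (hB : EB B) (κ : ℝ) (a : I → ℝ) :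
    J (fun s => nE ν (fun S => A S + bt κ a s * B S)) =
      nE ν A + ENNReal.ofReal (κ ^ 2 / 14 * ∑ i, a i ^ 2) * nE ν B := by
  have h := avg hW ν A (fun s S => bt κ a s * B S) (fun _ _ => 0) hA.meas
    (((bt_meas κ a).comp measurable_fst).mul (hB.meas.comp measurable_snd)) measurable_const
    (fun s S => by rw [bt_rot, mul_assoc]) (fun _ _ => by simp)
  simp only [add_zero] at h
  rw [h]
  have h0 : J (fun _ : I × Bool → ℝ => nE ν (fun _ : Multiset X => (0 : ℂ))) = 0 := by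
    rw [J_const hW]
    unfold nE
    simp
  have h1 : J (fun s : I × Bool → ℝ => nE ν (fun S => bt κ a s * B S)) =
      ENNReal.ofReal (κ ^ 2 / 14 * ∑ i, a i ^ 2) * nE ν B := by
    rw [← J_bt hW, ← J_mul_const ((bt_meas κ a).enorm.pow_const 2)]
    congr 1
    funext s
    unfold nE
    simp only [enorm_mul, mul_pow]
    rw [lintegral_const_mul _ (hB.meas.enorm.pow_const 2)]
  rw [h0, h1, add_zero]

end win

/-! ### The measurement -/

section meas

variable {X : Type} [MeasurableSpace X] {I : Type} [Fintype I]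

/-- the outcomes -/
def LL (ν : Measure X) (u : I → X → ℝ) (κ : ℝ) (k : I × Bool → ℤ) (F : Multiset X → ℂ) :
    Multiset X → ℂ :=
  Tk k (fun s => (win s : ℂ)) (fun s => DD ν (wv u κ s) F)

/-- the measured values -/
def cc (κ : ℝ) (k : I × Bool → ℤ) (i : I) : ℂ :=
  (Real.pi / κ : ℂ) * ((k (i, true) : ℂ) - Complex.I * (k (i, false) : ℂ))

lemma GB_win (hW : S_WIN) : GB fun s : I × Bool → ℝ => (win s : ℂ) := by
  classical
  obtain ⟨-, -, -, -, -, -, h7⟩ := hW I
  refine ⟨Complex.measurable_ofReal.comp win_meas, 2 ^ (2 * Fintype.card I), by positivity, ?_⟩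
  intro s hs
  rw [Complex.norm_real, Real.norm_eq_abs]
  exact (h7 s hs).1

lemma GB_dwin (hW : S_WIN) [DecidableEq I] (j : I × Bool) :
    GB fun s : I × Bool → ℝ => (dwin j s : ℂ) := by
  obtain ⟨-, -, -, -, -, -, h7⟩ := hW I
  refine ⟨Complex.measurable_ofReal.comp (dwin_meas j), 8 * 2 ^ (2 * Fintype.card I),
    by positivity, ?_⟩
  intro s hs
  rw [Complex.norm_real, Real.norm_eq_abs]
  exact (h7 s hs).2 j

lemma sumJ (hP : S_PAR) (hW : S_WIN) (ν : Measure X) [IsFiniteMeasure ν]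
    {Ψ : (I × Bool → ℝ) → Multiset X → ℂ} (h : JB Ψ) :
    ∑' k, nE ν (Tk k (fun s => (win s : ℂ)) Ψ) = J (fun s => nE ν (Ψ s)) := by
  rw [sumT hP ν (GB_win hW) h]
  unfold J
  refine lintegral_congr fun s => ?_
  rw [en2, Complex.normSq_ofReal, sq]

lemma wv_eq (u : I → X → ℝ) (κ : ℝ) (s : I × Bool → ℝ) (x : X) :
    wv u κ s x = bt κ (fun i => u i x) s := rfl

lemma wv_meas {u : I → X → ℝ} (hu : ∀ i, Measurable (u i)) (κ : ℝ) :
    Measurable fun q : (I × Bool → ℝ) × X => wv u κ q.1 q.2 := by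
  unfold wv
  refine Finset.measurable_sum _ fun i _ => ?_
  refine Measurable.mul (Measurable.mul measurable_const (Measurable.add ?_
    (Measurable.mul measurable_const ?_))) ?_
  · exact Complex.measurable_ofReal.comp ((measurable_pi_apply _).comp measurable_fst)
  · exact Complex.measurable_ofReal.comp ((measurable_pi_apply _).comp measurable_fst)
  · exact Complex.measurable_ofReal.comp ((hu i).comp measurable_snd)

lemma wv_meas' {u : I → X → ℝ} (hu : ∀ i, Measurable (u i)) (κ : ℝ) (s : I × Bool → ℝ) :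
    Measurable (wv u κ s) := by
  have h := (wv_meas hu κ).comp (measurable_prodMk_left (x := s))
  simpa only [Function.comp_def] using h

lemma wv_bdd {u : I → X → ℝ} (hu1 : ∀ i x, |u i x| ≤ 1) (κ : ℝ) (s : I × Bool → ℝ) :
    ∃ K : ℝ, ∀ x, ‖wv u κ s x‖ ≤ K := by
  refine ⟨∑ i, ‖(κ : ℂ) * ((s (i, false) : ℂ) + Complex.I * (s (i, true) : ℂ))‖, fun x => ?_⟩
  refine norm_sum_le_of_le _ fun i _ => ?_
  rw [norm_mul _ (u i x : ℂ), Complex.norm_real, Real.norm_eq_abs]
  exact mul_le_of_le_one_right (norm_nonneg _) (hu1 i x)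

lemma JB_DD (hW1 : S_W1) (ν : Measure X) [IsFiniteMeasure ν] {u : I → X → ℝ}
    (hu : ∀ i, Measurable (u i)) {κ K : ℝ}
    (hK : ∀ s : I × Bool → ℝ, (∀ j, |s j| ≤ 1 / 2) → ∀ x, ‖wv u κ s x‖ ≤ K)
    {F : Multiset X → ℂ} (hF : EB F) : JB (fun s => DD ν (wv u κ s) F) := by
  obtain ⟨h1, h2⟩ := hW1 X ν
  refine ⟨h2 _ (fun s => wv u κ s) F (wv_meas hu κ) hF, ?_⟩
  obtain ⟨C, c, hC, hc, h⟩ := h1 F hF K
  exact ⟨C, c, hC, hc, fun s hs S => (h _ (wv_meas' hu κ s) (hK s hs)).2.2.2 S⟩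

lemma sum_sq_le {a : I → ℝ} (ha : ∀ i, 0 ≤ a i) : ∑ i, a i ^ 2 ≤ (∑ i, a i) ^ 2 := by
  rw [sq (∑ i, a i), Finset.sum_mul]
  refine Finset.sum_le_sum fun i _ => ?_
  rw [sq]
  exact mul_le_mul_of_nonneg_left
    (Finset.single_le_sum (fun j _ => ha j) (Finset.mem_univ i)) (ha i)

lemma nE_congr (ν : Measure X) {F G : Multiset X → ℂ} (h : ∀ S, F S = G S) :
    nE ν F = nE ν G := by
  rw [funext h]

lemma nE_smul (ν : Measure X) {F : Multiset X → ℂ} (hF : EB F) (a : ℂ) :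
    nE ν (fun S => a * F S) = ‖a‖ₑ ^ 2 * nE ν F := by
  unfold nE
  simp only [enorm_mul, mul_pow]
  rw [lintegral_const_mul _ (hF.meas.enorm.pow_const 2)]

lemma nE_add_le (ν : Measure X) {F G : Multiset X → ℂ} (hF : EB F) (hG : EB G) :
    nE ν (fun S => F S + G S) ≤ 2 * nE ν F + 2 * nE ν G := by
  unfold nE
  rw [← lintegral_const_mul _ (hF.meas.enorm.pow_const 2),
    ← lintegral_const_mul _ (hG.meas.enorm.pow_const 2),
    ← lintegral_add_left ((hF.meas.enorm.pow_const 2).const_mul 2)]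
  refine lintegral_mono fun γ => ?_
  have e2 : (2 : ℝ≥0∞) = ENNReal.ofReal 2 := by norm_num
  simp only [en2]
  rw [e2, ← ENNReal.ofReal_mul (by norm_num), ← ENNReal.ofReal_mul (by norm_num),
    ← ENNReal.ofReal_add (mul_nonneg (by norm_num) (Complex.normSq_nonneg _))
      (mul_nonneg (by norm_num) (Complex.normSq_nonneg _))]
  refine ENNReal.ofReal_le_ofReal ?_
  simp only [Complex.normSq_apply, Complex.add_re, Complex.add_im]
  nlinarith [sq_nonneg ((F (ms γ)).re - (G (ms γ)).re),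
    sq_nonneg ((F (ms γ)).im - (G (ms γ)).im)]

end meas

section main

variable {X : Type} [MeasurableSpace X] {I : Type} [Fintype I] {ν : Measure X}
  [IsFiniteMeasure ν] {u : I → X → ℝ} {ω κ : ℝ}

/-- the hypotheses -/
structure Hyp (u : I → X → ℝ) (ω κ : ℝ) : Prop where
  W1 : S_W1
  W2 : S_W2
  W3 : S_W3
  DER : S_DER
  PAR : S_PAR
  IBP : S_IBP
  WIN : S_WIN
  um : ∀ i, Measurable (u i)
  u0 : ∀ i x, 0 ≤ u i x
  us : ∀ x, ∑ i, u i x = 1
  ω0 : 0 < ω
  κ0 : 0 < κ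
  κ2 : κ ^ 2 = 14 * ω

lemma ebc : S_EBC :=
  Pool.Agent.W417.CB.proof_ebc Pool.Agent.W975.CB.proof_ms
    (Pool.Agent.W366.CB.proof_lam Pool.Agent.W975.CB.proof_ms)

lemma EB_an {F : Multiset X → ℂ} (hF : EB F) (x : X) : EB (fun S => F (x ::ₘ S)) :=
  (ebc X 0 F F hF hF).1 x

lemma EB_lin {F G : Multiset X → ℂ} (hF : EB F) (hG : EB G) (a b : ℂ) :
    EB (fun S => a * F S + b * G S) :=
  (ebc X 0 F G hF hG).2.2.1 a b

lemma EB_add {F G : Multiset X → ℂ} (hF : EB F) (hG : EB G) (b : ℂ) :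
    EB (fun S => F S + b * G S) := by
  have h := EB_lin hF hG 1 b
  simpa only [one_mul] using h

lemma Hyp.ule (H : Hyp u ω κ) (i : I) (x : X) : u i x ≤ 1 := by
  rw [← H.us x]
  exact Finset.single_le_sum (fun j _ => H.u0 j x) (Finset.mem_univ i)

lemma Hyp.u1 (H : Hyp u ω κ) (i : I) (x : X) : |u i x| ≤ 1 := by
  rw [abs_of_nonneg (H.u0 i x)]
  exact H.ule i x

lemma Hyp.k14 (H : Hyp u ω κ) : κ ^ 2 / 14 = ω := by
  rw [H.κ2]
  ring

lemma Hyp.sq1 (H : Hyp u ω κ) (x : X) : ∑ i, u i x ^ 2 ≤ 1 := by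
  have h := sum_sq_le (a := fun i => u i x) (fun i => H.u0 i x)
  simpa only [H.us x, one_pow] using h

lemma Hyp.wb (H : Hyp u ω κ) (s : I × Bool → ℝ) (hs : ∀ j, |s j| ≤ 1 / 2) (x : X) :
    ‖wv u κ s x‖ ≤ κ * √(1 / 2) := by
  have h := bt_norm H.κ0.le (a := fun i => u i x) (fun i => H.u0 i x) hs
  rw [H.us x, mul_one] at h
  exact h

lemma Hyp.wb2 (H : Hyp u ω κ) (s : I × Bool → ℝ) (hs : ∀ j, |s j| ≤ 1 / 2) (x : X) :
    ‖wv u κ s x‖ₑ ^ 2 ≤ ENNReal.ofReal (7 * ω) := by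
  rw [← ofReal_norm, ← ENNReal.ofReal_pow (norm_nonneg _)]
  refine ENNReal.ofReal_le_ofReal ?_
  have h := pow_le_pow_left₀ (norm_nonneg _) (H.wb s hs x) 2
  refine h.trans (le_of_eq ?_)
  rw [mul_pow, Real.sq_sqrt (by norm_num), H.κ2]
  ring

lemma Hyp.jb (H : Hyp u ω κ) (ν : Measure X) [IsFiniteMeasure ν] {F : Multiset X → ℂ}
    (hF : EB F) : JB (fun s => DD ν (wv u κ s) F) :=
  JB_DD H.W1 ν H.um (fun s hs x => H.wb s hs x) hF

lemma Hyp.DDan (H : Hyp u ω κ) (ν : Measure X) [IsFiniteMeasure ν] {F : Multiset X → ℂ}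
    (hF : EB F) (s : I × Bool → ℝ) (x : X) (S : Multiset X) :
    DD ν (wv u κ s) F (x ::ₘ S) =
      DD ν (wv u κ s) (fun S => F (x ::ₘ S) + wv u κ s x * F S) S :=
  congrFun ((H.W3 X ν _ F F (wv_meas' H.um κ s) (wv_bdd H.u1 κ s) hF hF).2.1 x) S

lemma Hyp.DDlin (H : Hyp u ω κ) (ν : Measure X) [IsFiniteMeasure ν] {F G : Multiset X → ℂ}
    (hF : EB F) (hG : EB G) (s : I × Bool → ℝ) (a b : ℂ) (S : Multiset X) :
    DD ν (wv u κ s) (fun S => a * F S + b * G S) S =
      a * DD ν (wv u κ s) F S + b * DD ν (wv u κ s) G S :=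
  congrFun ((H.W3 X ν _ F G (wv_meas' H.um κ s) (wv_bdd H.u1 κ s) hF hG).1 a b) S

lemma Hyp.DDag (H : Hyp u ω κ) (ν : Measure X) [IsFiniteMeasure ν] {F : Multiset X → ℂ}
    (hF : EB F) (s : I × Bool → ℝ) {g : X → ℝ} (hg : Measurable g)
    (hgb : ∃ C : ℝ, ∀ x, |g x| ≤ C) (S : Multiset X) :
    ag ν g (DD ν (wv u κ s) F) S =
      DD ν (wv u κ s) (fun S => ag ν g F S + (∫ x, (g x : ℂ) * wv u κ s x ∂ν) * F S) S :=
  congrFun ((H.W3 X ν _ F F (wv_meas' H.um κ s) (wv_bdd H.u1 κ s) hF hF).2.2 g hg hgb) S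

lemma Hyp.nD (H : Hyp u ω κ) (ν : Measure X) [IsFiniteMeasure ν] {F : Multiset X → ℂ}
    (hF : EB F) (s : I × Bool → ℝ) : nE ν (DD ν (wv u κ s) F) = nE ν F :=
  H.W2 X ν _ F (wv_meas' H.um κ s) (wv_bdd H.u1 κ s) hF

lemma Hyp.an_sum (H : Hyp u ω κ) (ν : Measure X) [IsFiniteMeasure ν] {F : Multiset X → ℂ}
    (hF : EB F) (x : X) : ∑' k, nE ν (an x (LL ν u κ k F)) =
      nE ν (an x F) + ENNReal.ofReal (ω * ∑ i, u i x ^ 2) * nE ν F := by
  have e : ∀ k, nE ν (an x (LL ν u κ k F)) =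
      nE ν (Tk k (fun s => (win s : ℂ)) (fun s S => DD ν (wv u κ s) F (x ::ₘ S))) :=
    fun k => rfl
  simp only [e]
  rw [sumJ H.PAR H.WIN ν ((H.jb ν hF).shift x)]
  have e2 : ∀ s : I × Bool → ℝ, nE ν (fun S => DD ν (wv u κ s) F (x ::ₘ S)) =
      nE ν (fun S => F (x ::ₘ S) + bt κ (fun i => u i x) s * F S) := by
    intro s
    rw [nE_congr ν (fun S => H.DDan ν hF s x S)]
    exact H.nD ν (EB_add (EB_an hF x) hF _) s
  simp only [e2]
  rw [avg1 H.WIN ν (EB_an hF x) hF, H.k14]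
  rfl

lemma Hyp.kin (H : Hyp u ω κ) (ν : Measure X) [IsFiniteMeasure ν] {F : Multiset X → ℂ}
    (hF : EB F) (x y : X) : ∑' k, dE ν (LL ν u κ k F) x y =
      dE ν F x y + ENNReal.ofReal (ω * ∑ i, (u i x - u i y) ^ 2) * nE ν F := by
  have e : ∀ k, dE ν (LL ν u κ k F) x y =
      nE ν (Tk k (fun s => (win s : ℂ)) (fun s S => 1 * DD ν (wv u κ s) F (x ::ₘ S) +
        (-1) * DD ν (wv u κ s) F (y ::ₘ S))) := by
    intro k
    refine nE_congr ν fun S => ?_
    rw [Tk_lin k (GB_win H.WIN) ((H.jb ν hF).shift x) ((H.jb ν hF).shift y)]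
    rw [one_mul, neg_one_mul, sub_eq_add_neg]
    rfl
  simp only [e]
  rw [sumJ H.PAR H.WIN ν (((H.jb ν hF).shift x).lin ((H.jb ν hF).shift y) 1 (-1))]
  have hA : EB (fun S => 1 * F (x ::ₘ S) + (-1) * F (y ::ₘ S)) :=
    EB_lin (EB_an hF x) (EB_an hF y) 1 (-1)
  have e2 : ∀ s : I × Bool → ℝ, nE ν (fun S => 1 * DD ν (wv u κ s) F (x ::ₘ S) +
        (-1) * DD ν (wv u κ s) F (y ::ₘ S)) =
      nE ν (fun S => (1 * F (x ::ₘ S) + (-1) * F (y ::ₘ S)) +
        bt κ (fun i => u i x - u i y) s * F S) := by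
    intro s
    rw [nE_congr ν (G := DD ν (wv u κ s) (fun S => 1 * (F (x ::ₘ S) + wv u κ s x * F S) +
      (-1) * (F (y ::ₘ S) + wv u κ s y * F S)))]
    · rw [H.nD ν (EB_lin (EB_add (EB_an hF x) hF _) (EB_add (EB_an hF y) hF _) _ _) s]
      refine nE_congr ν fun S => ?_
      rw [← bt_sub, wv_eq, wv_eq]
      ring
    · intro S
      rw [H.DDlin ν (EB_add (EB_an hF x) hF _) (EB_add (EB_an hF y) hF _), ← H.DDan ν hF,
        ← H.DDan ν hF]
  simp only [e2]
  rw [avg1 H.WIN ν hA hF, H.k14]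
  congr 1
  refine nE_congr ν fun S => ?_
  ring

lemma Hyp.pair (H : Hyp u ω κ) (ν : Measure X) [IsFiniteMeasure ν] {F : Multiset X → ℂ}
    (hF : EB F) (x y : X) : ∑' k, nE ν (an y (an x (LL ν u κ k F))) ≤
      nE ν (an y (an x F)) + ENNReal.ofReal (2 * ω) * (nE ν (an x F) + nE ν (an y F)) +
        ENNReal.ofReal (49 * ω ^ 2) * nE ν F := by
  have e : ∀ k, nE ν (an y (an x (LL ν u κ k F))) =
      nE ν (Tk k (fun s => (win s : ℂ)) (fun s S => DD ν (wv u κ s) F (x ::ₘ y ::ₘ S))) :=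
    fun k => rfl
  simp only [e]
  rw [sumJ H.PAR H.WIN ν (((H.jb ν hF).shift x).shift y)]
  have hx := EB_an hF x
  have hy := EB_an hF y
  have hxy := EB_an hx y
  have e2 : ∀ s : I × Bool → ℝ, nE ν (fun S => DD ν (wv u κ s) F (x ::ₘ y ::ₘ S)) =
      nE ν (fun S => F (x ::ₘ y ::ₘ S) + (wv u κ s x * F (y ::ₘ S) + wv u κ s y * F (x ::ₘ S)) +
        (wv u κ s x * wv u κ s y) * F S) := by
    intro s
    have h1 := EB_add hx hF (wv u κ s x)
    rw [nE_congr ν (fun S => (H.DDan ν hF s x (y ::ₘ S)).trans (H.DDan ν h1 s y S))]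
    have h2 := H.nD ν (EB_add (EB_an h1 y) h1 (wv u κ s y)) s
    refine h2.trans ?_
    refine nE_congr ν fun S => ?_
    ring
  simp only [e2]
  have mx : Measurable fun s => wv u κ s x := bt_meas κ fun i => u i x
  have my : Measurable fun s => wv u κ s y := bt_meas κ fun i => u i y
  have rx : ∀ s, wv u κ (rot s) x = Complex.I * wv u κ s x := fun s => bt_rot κ _ s
  have ry : ∀ s, wv u κ (rot s) y = Complex.I * wv u κ s y := fun s => bt_rot κ _ s
  rw [avg H.WIN ν (fun S => F (x ::ₘ y ::ₘ S))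
    (fun s S => wv u κ s x * F (y ::ₘ S) + wv u κ s y * F (x ::ₘ S))
    (fun s S => (wv u κ s x * wv u κ s y) * F S) hxy.meas
    (((mx.comp measurable_fst).mul (hy.meas.comp measurable_snd)).add
      ((my.comp measurable_fst).mul (hx.meas.comp measurable_snd)))
    (((mx.comp measurable_fst).mul (my.comp measurable_fst)).mul (hF.meas.comp measurable_snd))
    (fun s S => by rw [rx, ry]; ring)
    (fun s S => by
      rw [rx, ry]
      linear_combination (wv u κ s x * wv u κ s y * F S) * Complex.I_sq)]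
  have jx : J (fun s => ‖wv u κ s x‖ₑ ^ 2) ≤ ENNReal.ofReal ω := by
    have h := J_bt H.WIN κ fun i => u i x
    rw [H.k14] at h
    refine h.le.trans (ENNReal.ofReal_le_ofReal ?_)
    exact mul_le_of_le_one_right H.ω0.le (H.sq1 x)
  have jy : J (fun s => ‖wv u κ s y‖ₑ ^ 2) ≤ ENNReal.ofReal ω := by
    have h := J_bt H.WIN κ fun i => u i y
    rw [H.k14] at h
    refine h.le.trans (ENNReal.ofReal_le_ofReal ?_)
    exact mul_le_of_le_one_right H.ω0.le (H.sq1 y)
  have q1 : J (fun s => nE ν (fun S => wv u κ s x * F (y ::ₘ S) + wv u κ s y * F (x ::ₘ S))) ≤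
      ENNReal.ofReal (2 * ω) * (nE ν (an x F) + nE ν (an y F)) := by
    calc _ ≤ J (fun s => ‖wv u κ s x‖ₑ ^ 2 * (2 * nE ν (an y F)) +
          ‖wv u κ s y‖ₑ ^ 2 * (2 * nE ν (an x F))) := by
          refine J_mono fun s _ => ?_
          have hx' : EB fun S => wv u κ s y * F (x ::ₘ S) := by
            have := EB_lin hx hx (wv u κ s y) 0
            simpa only [zero_mul, add_zero] using this
          have hy' : EB fun S => wv u κ s x * F (y ::ₘ S) := by
            have := EB_lin hy hy (wv u κ s x) 0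
            simpa only [zero_mul, add_zero] using this
          refine (nE_add_le ν hy' hx').trans (le_of_eq ?_)
          rw [nE_smul ν hy, nE_smul ν hx]
          unfold an
          ring
      _ = J (fun s => ‖wv u κ s x‖ₑ ^ 2) * (2 * nE ν (an y F)) +
          J (fun s => ‖wv u κ s y‖ₑ ^ 2) * (2 * nE ν (an x F)) := by
          rw [J_add ((mx.enorm.pow_const 2).mul_const _), J_mul_const (mx.enorm.pow_const 2),
            J_mul_const (my.enorm.pow_const 2)]
      _ ≤ ENNReal.ofReal ω * (2 * nE ν (an y F)) + ENNReal.ofReal ω * (2 * nE ν (an x F)) := by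
          gcongr
      _ = _ := by
          rw [mul_comm (2 : ℝ) ω, ENNReal.ofReal_mul H.ω0.le]
          have e2 : (2 : ℝ≥0∞) = ENNReal.ofReal 2 := by norm_num
          rw [← e2]
          ring
  have q2 : J (fun s => nE ν (fun S => (wv u κ s x * wv u κ s y) * F S)) ≤
      ENNReal.ofReal (49 * ω ^ 2) * nE ν F := by
    calc _ ≤ J (fun _ : I × Bool → ℝ => ENNReal.ofReal (49 * ω ^ 2) * nE ν F) := by
          refine J_mono fun s hs => ?_
          rw [nE_smul ν hF, enorm_mul, mul_pow]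
          gcongr
          calc _ ≤ ENNReal.ofReal (7 * ω) * ENNReal.ofReal (7 * ω) :=
                mul_le_mul' (H.wb2 s hs x) (H.wb2 s hs y)
            _ = _ := by
                rw [← ENNReal.ofReal_mul (by have := H.ω0; positivity)]
                congr 1
                ring
      _ = _ := J_const H.WIN _
  exact add_le_add (add_le_add le_rfl q1) q2

lemma Hyp.bint (H : Hyp u ω κ) (ν : Measure X) [IsFiniteMeasure ν] {g : X → ℝ}
    (hg : Measurable g) (hgb : ∃ C : ℝ, ∀ x, |g x| ≤ C) (s : I × Bool → ℝ) :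
    ∫ x, (g x : ℂ) * wv u κ s x ∂ν = bt κ (fun i => ∫ x, g x * u i x ∂ν) s := by
  obtain ⟨C, hC⟩ := hgb
  have hi : ∀ i, Integrable (fun x => ((g x * u i x : ℝ) : ℂ)) ν := by
    intro i
    refine Integrable.ofReal ?_
    refine Integrable.of_bound (hg.mul (H.um i)).aestronglyMeasurable (|C| * 1)
      (Filter.Eventually.of_forall fun x => ?_)
    change |g x * u i x| ≤ _
    rw [abs_mul]
    exact mul_le_mul ((hC x).trans (le_abs_self C)) (H.u1 i x) (abs_nonneg _) (abs_nonneg _)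
  unfold wv bt
  have e : ∀ x, (g x : ℂ) * ∑ i, (κ : ℂ) * ((s (i, false) : ℂ) + Complex.I * (s (i, true) : ℂ)) *
      (u i x : ℂ) = ∑ i, (κ : ℂ) * ((s (i, false) : ℂ) + Complex.I * (s (i, true) : ℂ)) *
      ((g x * u i x : ℝ) : ℂ) := by
    intro x
    rw [Finset.mul_sum]
    refine Finset.sum_congr rfl fun i _ => ?_
    push_cast
    ring
  simp only [e]
  rw [integral_finsetSum _ fun i _ => (hi i).const_mul _]
  refine Finset.sum_congr rfl fun i _ => ?_
  rw [integral_const_mul, integral_complex_ofReal]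

lemma Hyp.old (H : Hyp u ω κ) (ν : Measure X) [IsFiniteMeasure ν] {F : Multiset X → ℂ}
    (hF : EB F) {g : X → ℝ} (z : ℂ) (hg : Measurable g) (hg0 : ∀ x, 0 ≤ g x)
    (hgb : ∃ C : ℝ, ∀ x, g x ≤ C) :
    ∑' k, dev ν g z (LL ν u κ k F) ≤
      dev ν g z F + ENNReal.ofReal (ω * (∫ x, g x ∂ν) ^ 2) * nE ν F := by
  have hgb' : ∃ C : ℝ, ∀ x, |g x| ≤ C := by
    obtain ⟨C, hC⟩ := hgb
    exact ⟨C, fun x => by rw [abs_of_nonneg (hg0 x)]; exact hC x⟩
  have hjb := H.jb ν hF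
  have e : ∀ k, dev ν g z (LL ν u κ k F) =
      nE ν (Tk k (fun s => (win s : ℂ)) (fun s S => 1 * ag ν g (DD ν (wv u κ s) F) S +
        (-z) * DD ν (wv u κ s) F S)) := by
    intro k
    refine nE_congr ν fun S => ?_
    rw [Tk_lin k (GB_win H.WIN) (hjb.ag ν hg hgb') hjb, ← Tk_ag ν k (GB_win H.WIN) hjb hg hgb']
    rw [one_mul, neg_mul, sub_eq_add_neg]
    rfl
  simp only [e]
  rw [sumJ H.PAR H.WIN ν ((hjb.ag ν hg hgb').lin hjb 1 (-z))]
  have hAg : EB (ag ν g F) := (ebc X ν F F hF hF).2.2.2.1 g hg hgb'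
  have hA : EB (fun S => 1 * ag ν g F S + (-z) * F S) := EB_lin hAg hF 1 (-z)
  have e2 : ∀ s : I × Bool → ℝ, nE ν (fun S => 1 * ag ν g (DD ν (wv u κ s) F) S +
        (-z) * DD ν (wv u κ s) F S) =
      nE ν (fun S => (1 * ag ν g F S + (-z) * F S) +
        bt κ (fun i => ∫ x, g x * u i x ∂ν) s * F S) := by
    intro s
    rw [nE_congr ν (G := DD ν (wv u κ s) (fun S => 1 * (ag ν g F S +
      (∫ x, (g x : ℂ) * wv u κ s x ∂ν) * F S) + (-z) * F S))]
    · rw [H.nD ν (EB_lin (EB_add hAg hF _) hF _ _) s]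
      refine nE_congr ν fun S => ?_
      rw [H.bint ν hg hgb']
      ring
    · intro S
      rw [H.DDlin ν (EB_add hAg hF _) hF, ← H.DDag ν hF s hg hgb']
  simp only [e2]
  rw [avg1 H.WIN ν hA hF, H.k14]
  have hint : ∀ i, Integrable (fun x => g x * u i x) ν := by
    intro i
    obtain ⟨C, hC⟩ := hgb'
    refine Integrable.of_bound (hg.mul (H.um i)).aestronglyMeasurable (|C| * 1)
      (Filter.Eventually.of_forall fun x => ?_)
    change |g x * u i x| ≤ _
    rw [abs_mul]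
    exact mul_le_mul ((hC x).trans (le_abs_self C)) (H.u1 i x) (abs_nonneg _) (abs_nonneg _)
  have hsum : ∑ i, ∫ x, g x * u i x ∂ν = ∫ x, g x ∂ν := by
    rw [← integral_finsetSum _ fun i _ => hint i]
    refine integral_congr_ae (Filter.Eventually.of_forall fun x => ?_)
    simp only [← Finset.mul_sum, H.us x, mul_one]
  have hsq : ∑ i, (∫ x, g x * u i x ∂ν) ^ 2 ≤ (∫ x, g x ∂ν) ^ 2 := by
    have h := sum_sq_le (a := fun i => ∫ x, g x * u i x ∂ν)
      (fun i => integral_nonneg fun x => mul_nonneg (hg0 x) (H.u0 i x))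
    rwa [hsum] at h
  refine add_le_add (le_of_eq ?_) ?_
  · refine nE_congr ν fun S => ?_
    ring
  · gcongr
    exact H.ω0.le

/-- the window of the amplitudes -/
def Gw [DecidableEq I] (κ : ℝ) (b : (I × Bool → ℝ) → ℂ) (i : I) (s : I × Bool → ℝ) : ℂ :=
  (1 / 2) * b s * win s + (1 / (2 * κ)) * ((dwin (i, false) s : ℂ) +
    Complex.I * (dwin (i, true) s : ℂ))

lemma upd_eq {d : Type} [DecidableEq d] (s : d → ℝ) (j : d) :
    Function.update s j (s j) = s := Function.update_eq_self j s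

lemma GB_bt (κ : ℝ) (a : I → ℝ) : GB (bt κ a) := by
  refine ⟨bt_meas κ a, ∑ i, |κ| * (2 * |a i|), by positivity, fun s hs => ?_⟩
  unfold bt
  refine norm_sum_le_of_le _ fun i _ => ?_
  rw [norm_mul, norm_mul, Complex.norm_real, Complex.norm_real, Real.norm_eq_abs,
    Real.norm_eq_abs, mul_assoc]
  refine mul_le_mul_of_nonneg_left (mul_le_mul_of_nonneg_right ?_ (abs_nonneg _)) (abs_nonneg _)
  refine (norm_add_le _ _).trans ?_
  rw [norm_mul, Complex.norm_I, one_mul, Complex.norm_real, Complex.norm_real,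
    Real.norm_eq_abs, Real.norm_eq_abs]
  linarith [hs (i, false), hs (i, true)]

lemma Hyp.amp1 [DecidableEq I] (H : Hyp u ω κ) (ν : Measure X) [IsFiniteMeasure ν]
    {F : Multiset X → ℂ} (hF : EB F) (i : I) (k : I × Bool → ℤ) (S : Multiset X) :
    ag ν (u i) (LL ν u κ k F) S - cc κ k i * LL ν u κ k F S =
      Tk k (Gw κ (bt κ fun j => ∫ x, u i x * u j x ∂ν) i) (fun s => DD ν (wv u κ s) F) S := by
  obtain ⟨b, hb⟩ : ∃ b, b = bt κ fun j => ∫ x, u i x * u j x ∂ν := ⟨_, rfl⟩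
  have hjb := H.jb ν hF
  have hgb : ∃ C : ℝ, ∀ x, |u i x| ≤ C := ⟨1, H.u1 i⟩
  obtain ⟨Hf, hHf⟩ : ∃ Hf : (I × Bool → ℝ) → ℂ, Hf = fun s => DD ν (wv u κ s) F S := ⟨_, rfl⟩
  have gH : GB Hf := by rw [hHf]; exact hjb.gb S
  obtain ⟨G, hG1, hG2, hG3, hG4⟩ := H.DER X ν I u κ F S H.um H.u1 hF
  have gG : ∀ j, GB (G j) := by
    intro j
    obtain ⟨C, hC⟩ := hG3 (1 / 2)
    exact ⟨hG2 j, max C 0, le_max_right _ _, fun s hs => (hC j s hs).trans (le_max_left _ _)⟩
  have gw := GB_win (I := I) H.WIN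
  have gk := GB.ek k
  have gb : GB b := by rw [hb]; exact GB_bt _ _
  obtain ⟨-, -, -, -, w5, w6, w7⟩ := H.WIN I
  -- integration by parts
  have ibp : ∀ j : I × Bool, ∫ s in bx (I × Bool), ek k s * (win s * G j s) =
      2 * Real.pi * Complex.I * k j * (∫ s in bx (I × Bool), ek k s * (win s * Hf s)) -
        ∫ s in bx (I × Bool), ek k s * (dwin j s * Hf s) := by
    intro j
    have gd := GB_dwin (I := I) H.WIN j
    have g1 := (gk.mul (gw.mul gH))
    have g2 := (gk.mul (gd.mul gH))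
    have g3 := (gk.mul (gw.mul (gG j)))
    have gE := (((GB.const (d := I × Bool) (-(2 * Real.pi * Complex.I * k j))).mul g1).add
      ((GB.const 1).mul g2)).add ((GB.const 1).mul g3)
    have h0 := H.IBP (I × Bool) j (fun s => ek k s * (win s * Hf s))
      (fun s => -(2 * Real.pi * Complex.I * k j) * (ek k s * (win s * Hf s)) +
        1 * (ek k s * (dwin j s * Hf s)) + 1 * (ek k s * (win s * G j s)))
      g1.meas gE.meas ?_ ?_ ?_
    · rw [int3 g1 g2 g3] at h0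
      linear_combination h0
    · obtain ⟨K, hK, h⟩ := g1.bdd
      obtain ⟨K', hK', h'⟩ := gE.bdd
      exact ⟨max K K', fun s hs => ⟨(h s hs).trans (le_max_left _ _),
        (h' s hs).trans (le_max_right _ _)⟩⟩
    · intro s
      have d1 := ek_der k j s
      have d2 := (w5 j s).ofReal_comp
      have d3 := hG1 j s
      have d4 := d1.fun_mul (d2.fun_mul d3)
      simp only [upd_eq] at d4
      rw [hHf]
      refine d4.congr_deriv ?_
      ring
    · intro s hs
      simp only [w6 j s hs, Complex.ofReal_zero, zero_mul, mul_zero]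
  have hκ : (κ : ℂ) ≠ 0 := by exact_mod_cast H.κ0.ne'
  have hag : ∀ s, ag ν (u i) (DD ν (wv u κ s) F) S =
      (1 / 2) * (b s * Hf s) - (1 / (2 * κ)) * (G (i, false) s + Complex.I * G (i, true) s) := by
    intro s
    rw [hG4 i s, H.bint ν (H.um i) hgb, hb, hHf]
    field_simp
    ring
  have e1 : ag ν (u i) (LL ν u κ k F) S = ∫ s in bx (I × Bool),
      ((1 / 2) * (ek k s * (win s * (b s * Hf s))) + (-(1 / (2 * κ))) *
        (ek k s * (win s * G (i, false) s)) + (-(1 / (2 * κ)) * Complex.I) *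
          (ek k s * (win s * G (i, true) s))) := by
    unfold LL
    rw [Tk_ag ν k gw hjb (H.um i) hgb]
    unfold Tk
    refine integral_congr_ae (Filter.Eventually.of_forall fun s => ?_)
    simp only [hag]
    ring
  have gi1 := (gk.mul (gw.mul (gb.mul gH)))
  have gi2 := (gk.mul (gw.mul (gG (i, false))))
  have gi3 := (gk.mul (gw.mul (gG (i, true))))
  have gd1 := (gk.mul ((GB_dwin (I := I) H.WIN (i, false)).mul gH))
  have gd2 := (gk.mul ((GB_dwin (I := I) H.WIN (i, true)).mul gH))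
  rw [e1, int3 gi1 gi2 gi3, ibp, ibp]
  have e2 : Tk k (Gw κ b i) (fun s => DD ν (wv u κ s) F) S = ∫ s in bx (I × Bool),
      ((1 / 2) * (ek k s * (win s * (b s * Hf s))) + (1 / (2 * κ)) *
        (ek k s * (dwin (i, false) s * Hf s)) + (1 / (2 * κ) * Complex.I) *
          (ek k s * (dwin (i, true) s * Hf s))) := by
    unfold Tk Gw
    refine integral_congr_ae (Filter.Eventually.of_forall fun s => ?_)
    rw [hHf]
    ring
  have e3 : LL ν u κ k F S = ∫ s in bx (I × Bool), ek k s * (win s * Hf s) := by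
    rw [hHf]
    rfl
  rw [← hb, e2, int3 gi1 gd1 gd2, e3]
  unfold cc
  linear_combination (-(Real.pi / κ : ℂ) * k (i, true) *
    (∫ s in bx (I × Bool), ek k s * (win s * Hf s))) * Complex.I_sq

lemma Hyp.amp [DecidableEq I] (H : Hyp u ω κ) (ν : Measure X) [IsFiniteMeasure ν]
    {F : Multiset X → ℂ} (hF : EB F) (i : I) {M : ℝ} (hM : ∫ x, u i x ∂ν = M) :
    ∑' k, dev ν (u i) (cc κ k i) (LL ν u κ k F) ≤
      ENNReal.ofReal (1 / ω + M ^ 2 * ω) * nE ν F := by
  obtain ⟨a, ha⟩ : ∃ a : I → ℝ, a = fun j => ∫ x, u i x * u j x ∂ν := ⟨_, rfl⟩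
  have e : ∀ k, dev ν (u i) (cc κ k i) (LL ν u κ k F) =
      nE ν (Tk k (Gw κ (bt κ a) i) (fun s => DD ν (wv u κ s) F)) := by
    intro k
    refine nE_congr ν fun S => ?_
    rw [ha]
    exact H.amp1 ν hF i k S
  simp only [e]
  have gd0 := GB_dwin (I := I) H.WIN (i, false)
  have gd1 := GB_dwin (I := I) H.WIN (i, true)
  have gG : GB (Gw κ (bt κ a) i) := by
    have h1 := (((GB.const (d := I × Bool) (1 / 2)).mul (GB_bt κ a)).mul (GB_win H.WIN)).add
      ((GB.const (1 / (2 * κ))).mul (gd0.add ((GB.const Complex.I).mul gd1)))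
    exact h1
  rw [sumT H.PAR ν gG (H.jb ν hF)]
  simp only [H.nD ν hF]
  rw [lintegral_mul_const _ (gG.meas.enorm.pow_const 2)]
  gcongr
  obtain ⟨w1, w2, w3, w4, w5, w6, w7⟩ := H.WIN I
  -- pointwise bound
  have hpt : ∀ s, ‖Gw κ (bt κ a) i s‖ₑ ^ 2 ≤
      ENNReal.ofReal (1 / 2) * (ENNReal.ofReal (win s ^ 2) * ‖bt κ a s‖ₑ ^ 2) +
        ENNReal.ofReal (1 / (2 * κ ^ 2)) * (ENNReal.ofReal (dwin (i, false) s ^ 2) +
          ENNReal.ofReal (dwin (i, true) s ^ 2)) := by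
    intro s
    have hκ := H.κ0
    simp only [en2]
    rw [← ENNReal.ofReal_mul (sq_nonneg _), ← ENNReal.ofReal_mul (by norm_num),
      ← ENNReal.ofReal_add (sq_nonneg _) (sq_nonneg _), ← ENNReal.ofReal_mul (by positivity),
      ← ENNReal.ofReal_add
        (mul_nonneg (by norm_num) (mul_nonneg (sq_nonneg _) (Complex.normSq_nonneg _)))
        (by positivity)]
    refine ENNReal.ofReal_le_ofReal ?_
    have e1 : Gw κ (bt κ a) i s = (((win s / 2 : ℝ) : ℂ) * bt κ a s) +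
        ((1 / (2 * κ) : ℝ) : ℂ) * ((dwin (i, false) s : ℂ) + Complex.I * (dwin (i, true) s : ℂ)) := by
      unfold Gw
      push_cast
      ring
    have e2 : ∀ p q : ℂ, Complex.normSq (p + q) ≤ 2 * Complex.normSq p + 2 * Complex.normSq q := by
      intro p q
      simp only [Complex.normSq_apply, Complex.add_re, Complex.add_im]
      nlinarith [sq_nonneg (p.re - q.re), sq_nonneg (p.im - q.im)]
    rw [e1]
    refine (e2 _ _).trans (le_of_eq ?_)
    rw [Complex.normSq_mul, Complex.normSq_mul, Complex.normSq_ofReal, Complex.normSq_ofReal]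
    have e3 : Complex.normSq ((dwin (i, false) s : ℂ) + Complex.I * (dwin (i, true) s : ℂ)) =
        dwin (i, false) s ^ 2 + dwin (i, true) s ^ 2 := by
      simp [Complex.normSq_apply]
      ring
    rw [e3]
    field_simp
  have m1 : Measurable fun s : I × Bool → ℝ =>
      ENNReal.ofReal (win s ^ 2) * ‖bt κ a s‖ₑ ^ 2 :=
    ((win_meas.pow_const 2).ennreal_ofReal).mul ((bt_meas κ a).enorm.pow_const 2)
  have m2 : Measurable fun s : I × Bool → ℝ => ENNReal.ofReal (dwin (i, false) s ^ 2) :=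
    ((dwin_meas _).pow_const 2).ennreal_ofReal
  have m3 : Measurable fun s : I × Bool → ℝ => ENNReal.ofReal (dwin (i, true) s ^ 2) :=
    ((dwin_meas _).pow_const 2).ennreal_ofReal
  have m4 : Measurable fun s : I × Bool → ℝ => ENNReal.ofReal (dwin (i, false) s ^ 2) +
      ENNReal.ofReal (dwin (i, true) s ^ 2) := m2.add m3
  have hJ : J (fun s => ‖bt κ a s‖ₑ ^ 2) ≤ ENNReal.ofReal (ω * M ^ 2) := by
    rw [J_bt H.WIN, H.k14]
    refine ENNReal.ofReal_le_ofReal (mul_le_mul_of_nonneg_left ?_ H.ω0.le)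
    have hint : ∀ j, Integrable (fun x => u i x * u j x) ν := by
      intro j
      refine Integrable.of_bound ((H.um i).mul (H.um j)).aestronglyMeasurable (1 * 1)
        (Filter.Eventually.of_forall fun x => ?_)
      change |u i x * u j x| ≤ _
      rw [abs_mul]
      exact mul_le_mul (H.u1 i x) (H.u1 j x) (abs_nonneg _) zero_le_one
    have hsum : ∑ j, a j = M := by
      rw [ha, ← integral_finsetSum _ fun j _ => hint j, ← hM]
      refine integral_congr_ae (Filter.Eventually.of_forall fun x => ?_)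
      simp only [← Finset.mul_sum, H.us x, mul_one]
    rw [← hsum]
    refine sum_sq_le fun j => ?_
    rw [ha]
    exact integral_nonneg fun x => mul_nonneg (H.u0 i x) (H.u0 j x)
  calc ∫⁻ s in bx (I × Bool), ‖Gw κ (bt κ a) i s‖ₑ ^ 2 ≤
      ∫⁻ s in bx (I × Bool), (ENNReal.ofReal (1 / 2) * (ENNReal.ofReal (win s ^ 2) *
        ‖bt κ a s‖ₑ ^ 2) + ENNReal.ofReal (1 / (2 * κ ^ 2)) *
          (ENNReal.ofReal (dwin (i, false) s ^ 2) + ENNReal.ofReal (dwin (i, true) s ^ 2))) :=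
        lintegral_mono hpt
    _ = ENNReal.ofReal (1 / 2) * J (fun s => ‖bt κ a s‖ₑ ^ 2) +
        ENNReal.ofReal (1 / (2 * κ ^ 2)) * (10 + 10) := by
        rw [lintegral_add_left (m1.const_mul _), lintegral_const_mul _ m1,
          lintegral_const_mul _ m4, lintegral_add_left m2, w4, w4]
        rfl
    _ ≤ ENNReal.ofReal (1 / 2) * ENNReal.ofReal (ω * M ^ 2) +
        ENNReal.ofReal (1 / (2 * κ ^ 2)) * (10 + 10) := by
        gcongr
    _ ≤ ENNReal.ofReal (1 / ω + M ^ 2 * ω) := by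
        have e20 : (10 + 10 : ℝ≥0∞) = ENNReal.ofReal 20 := by norm_num
        have hω := H.ω0
        have hκ := H.κ0
        rw [e20, ← ENNReal.ofReal_mul (by norm_num), ← ENNReal.ofReal_mul (by positivity),
          ← ENNReal.ofReal_add (by positivity) (by positivity)]
        refine ENNReal.ofReal_le_ofReal ?_
        rw [H.κ2]
        have e1 : 1 / (2 * (14 * ω)) * 20 = (5 / 7) * (1 / ω) := by
          field_simp
          norm_num
        rw [e1]
        have h1 : 0 < 1 / ω := by positivity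
        have h2 : 0 ≤ ω * M ^ 2 := by positivity
        nlinarith

end main

theorem meas : S_W1 → S_W2 → S_W3 → S_DER → S_PAR → S_IBP → S_WIN → S_MEAS := by
  classical
  intro W1 W2 W3 DER PAR IBP WIN X _ ν _ I _ u ω M hω um u0 us hM
  have H : Hyp u ω (√(14 * ω)) :=
    ⟨W1, W2, W3, DER, PAR, IBP, WIN, um, u0, us, hω, Real.sqrt_pos.2 (by positivity),
      Real.sq_sqrt (by positivity)⟩
  refine ⟨I × Bool → ℤ, inferInstance, LL ν u √(14 * ω), cc √(14 * ω), ?_⟩
  refine ⟨?_, ?_, ?_, ?_, ?_, ?_, ?_, ?_⟩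
  · intro F hF k
    exact Tk_EB k (GB_win WIN) (H.jb ν hF)
  · intro F hF
    have h := sumJ PAR WIN ν (H.jb ν hF)
    simp only [H.nD ν hF] at h
    rw [J_const WIN] at h
    exact h
  · intro F hF x
    rw [H.an_sum ν hF x]
    exact le_self_add
  · intro F hF x
    rw [H.an_sum ν hF x]
    gcongr
    exact mul_le_of_le_one_right hω.le (H.sq1 x)
  · intro F hF x y
    exact (H.kin ν hF x y).le
  · intro F hF x y
    exact H.pair ν hF x y
  · intro F hF i
    exact H.amp ν hF i (hM i)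
  · intro F hF g z hg hg0 hgb
    exact H.old ν hF z hg hg0 hgb

end

end Pool.Agent.W193.CB
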